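import Mathlib

/-!
# The game Lazy Cops and Robbers on a graph, and the lazy cop number
-/

namespace Pool.Agent.helper13.LazyCops

/-- The `n`-dimensional hypercube `Q_n`: the vertices are the `0/1`-vectors of length `n`, and two
vertices are adjacent when they differ in exactly one coordinate. -/
def hypercube (n : ℕ) : SimpleGraph (Fin n → Bool) where
  Adj x y := hammingDist x y = 1
  symm := ⟨fun x y h => by rw [hammingDist_comm]; exact h⟩
  loopless := ⟨fun x h => by simp at h⟩

variable {V : Type*} (G : SimpleGraph V)

/-- A legal cop turn of the lazy game, from the cop positions `c` to the cop positions `c'`: at most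
one cop moves, and it moves to an adjacent vertex. -/
def CopTurn {k : ℕ} (c c' : Fin k → V) : Prop :=
  c' = c ∨ ∃ i, G.Adj (c i) (c' i) ∧ ∀ j, j ≠ i → c' j = c j

/-- A legal robber turn: the robber stays or moves to an adjacent vertex. -/
def RobberTurn (r r' : V) : Prop :=
  r' = r ∨ G.Adj r r'

/-- A strategy for `k` cops. `pos h` is the placement of the cops once the robber has been seen on
the vertices in the list `h` (most recent vertex first); `pos []` is the starting placement, chosen
before the robber is placed. Each new robber vertex is answered by one legal cop turn. -/
structure CopStrategy (k : ℕ) where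
  /-- the cop positions as a function of the robber positions seen so far -/
  pos : List V → Fin k → V
  /-- the answer to a new robber position is a legal cop turn -/
  legal : ∀ (h : List V) (r : V), CopTurn G (pos h) (pos (r :: h))

/-- The list `[r (t-1), …, r 1, r 0]` of the first `t` robber positions. -/
def history (r : ℕ → V) : ℕ → List V
  | 0 => []
  | t + 1 => r t :: history r t

/-- The strategy `S` catches the robber who occupies successively `r 0, r 1, r 2, …`: at some moment
a cop is on the robber's vertex. (When the robber has just arrived at `r t` the cops are at
`S.pos (history r t)`, and after their answer they are at `S.pos (history r (t + 1))`.) -/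
def Catches {k : ℕ} (S : CopStrategy G k) (r : ℕ → V) : Prop :=
  ∃ t, (∃ i, S.pos (history r t) i = r t) ∨ (∃ i, S.pos (history r (t + 1)) i = r t)

/-- `k` cops have a strategy that catches the robber whatever the robber does. -/
def CopsWin (k : ℕ) : Prop :=
  ∃ S : CopStrategy G k, ∀ r : ℕ → V, (∀ t, RobberTurn G (r t) (r (t + 1))) → Catches G S r

/-- The lazy cop number of `G`: the least `k` for which `k` cops have a winning strategy. -/
noncomputable def lazyCopNumber : ℕ := sInf {k | CopsWin G k}

end Pool.Agent.helper13.LazyCops
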