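import Pool.Agent.helper13.Walk
import Pool.Agent.helper13.LazyGame

/-!
The cop strategy on the hypercube.
-/

open Finset

namespace Pool.Agent.helper13.LazyCops

section General

variable {V : Type*} (G : SimpleGraph V) {k : ℕ}

/-- The cops (to move) can catch the robber in at most `m` turns. -/
def WinN : ℕ → (Fin k → V) → V → Prop
  | 0, c, x => ∃ i, c i = x
  | m + 1, c, x => (∃ i, c i = x) ∨ ∃ c', CopTurn G c c' ∧
      ((∃ i, c' i = x) ∨ ∀ x', RobberTurn G x x' → WinN m c' x')

theorem WinN.succ {m : ℕ} : ∀ {c : Fin k → V} {x : V}, WinN G m c x → WinN G (m + 1) c x := by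
  induction m with
  | zero => intro c x h; exact Or.inl h
  | succ m ih =>
    intro c x h
    rcases h with h | ⟨c', hc', h⟩
    · exact Or.inl h
    · refine Or.inr ⟨c', hc', ?_⟩
      rcases h with h | h
      · exact Or.inl h
      · exact Or.inr (fun x' hx' => ih (h x' hx'))

theorem WinN.mono {m m' : ℕ} (hm : m ≤ m') {c : Fin k → V} {x : V} (h : WinN G m c x) :
    WinN G m' c x := by
  induction hm with
  | refl => exact h
  | step _ ih => exact WinN.succ G ih

/-- winning positions (cops to move) -/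
def Win (c : Fin k → V) (x : V) : Prop := ∃ m, WinN G m c x

theorem Win.of_eq {c : Fin k → V} {x : V} {i : Fin k} (h : c i = x) : Win G c x := ⟨0, i, h⟩

theorem Win.of_adj {c : Fin k → V} {x : V} {i : Fin k} (h : G.Adj (c i) x) : Win G c x := by
  classical
  refine ⟨1, Or.inr ⟨Function.update c i x, Or.inr ⟨i, ?_, ?_⟩, Or.inl ⟨i, ?_⟩⟩⟩
  · simpa using h
  · intro j hj; simp [hj]
  · simp

theorem Win.step [Finite V] {c c' : Fin k → V} {x : V} (hc : CopTurn G c c')
    (h : ∀ x', RobberTurn G x x' → Win G c' x') : Win G c x := by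
  classical
  have := Fintype.ofFinite V
  have h' : ∀ x', ∃ m, RobberTurn G x x' → WinN G m c' x' := by
    intro x'
    by_cases hx : RobberTurn G x x'
    · obtain ⟨m, hm⟩ := h x' hx
      exact ⟨m, fun _ => hm⟩
    · exact ⟨0, fun hcon => absurd hcon hx⟩
  choose f hf using h'
  refine ⟨(Finset.univ.sup f) + 1, Or.inr ⟨c', hc, Or.inr ?_⟩⟩
  intro x' hx'
  exact WinN.mono G (Finset.le_sup (f := f) (Finset.mem_univ x')) (hf x' hx')

/-- the answer of the cops -/
noncomputable def nextState (p : (Fin k → V) × ℕ) (x : V) : (Fin k → V) × ℕ := by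
  classical
  exact match p with
  | (c, 0) => (c, 0)
  | (c, m + 1) =>
    if h : ∃ c', CopTurn G c c' ∧ ((∃ i, c' i = x) ∨ ∀ x', RobberTurn G x x' → WinN G m c' x')
    then (h.choose, m) else (c, m + 1)

theorem nextState_legal (p : (Fin k → V) × ℕ) (x : V) :
    CopTurn G p.1 (nextState G p x).1 := by
  rcases p with ⟨c, m | m⟩
  · exact Or.inl rfl
  · unfold nextState
    dsimp only
    split_ifs with h
    · exact h.choose_spec.1
    · exact Or.inl rfl

/-- state of the cops after a history -/
noncomputable def stateOf (c0 : Fin k → V) (N : ℕ) : List V → (Fin k → V) × ℕ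
  | [] => (c0, N)
  | x :: h => nextState G (stateOf c0 N h) x

/-- If the cops win from a placement against every starting vertex, then they win the game. -/
theorem copsWin_of_win [Finite V] (c0 : Fin k → V) (h : ∀ x, Win G c0 x) : CopsWin G k := by
  classical
  have := Fintype.ofFinite V
  choose f hf using h
  set N := Finset.univ.sup f with hN
  have hWN : ∀ x, WinN G N c0 x := fun x =>
    WinN.mono G (Finset.le_sup (f := f) (Finset.mem_univ x)) (hf x)
  let S : CopStrategy G k :=
    { pos := fun h => (stateOf G c0 N h).1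
      legal := fun h r => nextState_legal G _ _ }
  refine ⟨S, ?_⟩
  intro r hr
  have key : ∀ m t, (stateOf G c0 N (history r t)).2 = m →
      WinN G m (stateOf G c0 N (history r t)).1 (r t) → Catches G S r := by
    intro m
    induction m with
    | zero =>
      intro t _ hw
      exact ⟨t, Or.inl hw⟩
    | succ m ih =>
      intro t hm hw
      rcases hw with hw | hw
      · exact ⟨t, Or.inl hw⟩
      · obtain ⟨c, hc⟩ : ∃ c, (stateOf G c0 N (history r t)) = (c, m + 1) :=
          ⟨(stateOf G c0 N (history r t)).1, Prod.ext rfl hm⟩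
        rw [hc] at hw
        have hnext : stateOf G c0 N (history r (t + 1)) = (hw.choose, m) := by
          show nextState G (stateOf G c0 N (history r t)) (r t) = (hw.choose, m)
          rw [hc]
          unfold nextState
          dsimp only
          rw [dif_pos hw]
        rcases hw.choose_spec.2 with h1 | h1
        · refine ⟨t, Or.inr ?_⟩
          show ∃ i, (stateOf G c0 N (history r (t + 1))).1 i = r t
          rw [hnext]
          exact h1
        · apply ih (t + 1)
          · rw [hnext]
          · rw [hnext]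
            exact h1 _ (hr t)
  exact key N 0 rfl (hWN (r 0))

end General

section Cube

variable {n k : ℕ}

theorem exists_closer {x y : Fin n → Bool} (h : x ≠ y) :
    ∃ i, hammingDist (flip i x) y < hammingDist x y := by
  obtain ⟨i, hi⟩ := Function.ne_iff.mp h
  exact ⟨i, by have := hammingDist_flip_of_ne hi; omega⟩

theorem adj_flip' (i : Fin n) (x : Fin n → Bool) : (hypercube n).Adj x (flip i x) := by
  show hammingDist x (flip i x) = 1
  have := hammingDist_flip_of_eq (i := i) (x := x) (c := x) rfl
  rw [hammingDist_self] at this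
  rw [hammingDist_comm]
  omega

/-- team `I` guards level `m` of `w` -/
def Guards (w : (Fin n → Bool) → ℕ) (m : ℕ) {D : ℕ} (I : Fin D → Fin k)
    (c : Fin k → (Fin n → Bool)) : Prop :=
  ∀ x, w x = m → ∃ j, c (I j) = x ∨ (hypercube n).Adj (c (I j)) x

theorem Guards.win {w : (Fin n → Bool) → ℕ} {m D : ℕ} {I : Fin D → Fin k}
    {c : Fin k → (Fin n → Bool)} (h : Guards w m I c) {x : Fin n → Bool} (hx : w x = m) :
    Win (hypercube n) c x := by
  obtain ⟨j, hj | hj⟩ := h x hx
  · exact Win.of_eq _ hj
  · exact Win.of_adj _ hj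

/-- moving the cops to a target placement while team `I` keeps guarding -/
theorem moving (w : (Fin n → Bool) → ℕ) (hw : ∀ x y, (hypercube n).Adj x y → w y ≤ w x + 1)
    (m : ℕ) {D : ℕ} (I : Fin D → Fin k) (t : Fin k → (Fin n → Bool))
    (hguard : Guards w m I t) (ht : ∀ x, w x < m → Win (hypercube n) t x) :
    ∀ N : ℕ, ∀ c : Fin k → (Fin n → Bool), (∑ i, hammingDist (c i) (t i)) = N →
      (∀ j, c (I j) = t (I j)) → ∀ x, w x < m → Win (hypercube n) c x := by
  intro N
  induction N using Nat.strong_induction_on with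
  | _ N IH =>
    intro c hN hI x hx
    by_cases hct : c = t
    · rw [hct]; exact ht x hx
    · obtain ⟨i, hi⟩ := Function.ne_iff.mp hct
      obtain ⟨l, hl⟩ := exists_closer hi
      set c' := Function.update c i (flip l (c i)) with hc'
      have hturn : CopTurn (hypercube n) c c' := by
        right
        refine ⟨i, ?_, ?_⟩
        · rw [hc']; simp only [Function.update_self]; exact adj_flip' l (c i)
        · intro j hj; rw [hc']; simp [hj]
      have hI' : ∀ j, c' (I j) = t (I j) := by
        intro j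
        have : I j ≠ i := by
          rintro rfl
          exact hi (hI j)
        rw [hc']
        simp [this, hI j]
      have hlt : (∑ i, hammingDist (c' i) (t i)) < N := by
        rw [← hN]
        apply Finset.sum_lt_sum
        · intro j _
          by_cases hj : j = i
          · subst hj; rw [hc']; simp only [Function.update_self]; exact hl.le
          · rw [hc']; simp [hj]
        · refine ⟨i, mem_univ _, ?_⟩
          rw [hc']; simp only [Function.update_self]; exact hl
      apply Win.step _ hturn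
      intro x' hx'
      have hwx' : w x' ≤ m := by
        rcases hx' with h | h
        · rw [h]; exact hx.le
        · have := hw _ _ h
          omega
      rcases Nat.lt_or_ge (w x') m with h | h
      · exact IH _ hlt c' rfl hI' x' h
      · have hguard' : Guards w m I c' := by
          intro y hy
          obtain ⟨j, hj⟩ := hguard y hy
          exact ⟨j, by rw [hI' j]; exact hj⟩
        exact hguard'.win (le_antisymm hwx' h)

/-- pushing the robber down -/
theorem push_down (w : (Fin n → Bool) → ℕ)
    (hw : ∀ x y, (hypercube n).Adj x y → w y ≤ w x + 1) {D : ℕ}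
    (τ : ℕ → Fin D → (Fin n → Bool))
    (hτ : ∀ m x, w x = m → ∃ j, τ m j = x ∨ (hypercube n).Adj (τ m j) x) :
    ∀ (m : ℕ) (I J : Fin D → Fin k), Function.Injective J → (∀ i j, I i ≠ J j) →
      Function.Injective I →
      ∀ c : Fin k → (Fin n → Bool), Guards w m I c → ∀ x, w x < m → Win (hypercube n) c x := by
  classical
  intro m
  induction m with
  | zero => intro I J _ _ _ c _ x hx; omega
  | succ m ih =>
    intro I J hJ hIJ hI c hc x hx
    -- target placement
    let t : Fin k → (Fin n → Bool) := fun i => if h : ∃ j, J j = i then τ m h.choose else c i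
    have htI : ∀ j, t (I j) = c (I j) := by
      intro j
      have : ¬ ∃ j', J j' = I j := by
        rintro ⟨j', hj'⟩
        exact hIJ j j' hj'.symm
      simp only [t]
      rw [dif_neg this]
    have htJ : ∀ j, t (J j) = τ m j := by
      intro j
      have h : ∃ j', J j' = J j := ⟨j, rfl⟩
      simp only [t]
      rw [dif_pos h]
      congr 1
      exact hJ h.choose_spec
    have hgI : Guards w (m + 1) I t := by
      intro y hy
      obtain ⟨j, hj⟩ := hc y hy
      exact ⟨j, by rw [htI j]; exact hj⟩
    have hgJ : Guards w m J t := by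
      intro y hy
      obtain ⟨j, hj⟩ := hτ m y hy
      exact ⟨j, by rw [htJ j]; exact hj⟩
    apply moving w hw (m + 1) I t hgI _ _ c rfl (fun j => (htI j).symm) x hx
    intro y hy
    rcases Nat.lt_or_ge (w y) m with h | h
    · exact ih J I hI (fun i j => (hIJ j i).symm) hJ t hgJ y h
    · exact hgJ.win (by omega)

/-- the weight of a vertex -/
def wt (x : Fin n → Bool) : ℕ := (univ.filter (fun i => x i = true)).card

theorem wt_le (x : Fin n → Bool) : wt x ≤ n := by
  unfold wt
  refine (Finset.card_filter_le _ _).trans ?_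
  simp

theorem wt_eq_hammingDist (x : Fin n → Bool) : wt x = hammingDist x (fun _ => false) := by
  unfold wt hammingDist
  congr 1
  ext i
  simp

theorem adj_iff_flip {x y : Fin n → Bool} : (hypercube n).Adj x y ↔ ∃ i, y = flip i x := by
  constructor
  · intro h
    have h' : hammingDist y x = 1 := by
      rw [hammingDist_comm]; exact h
    exact exists_flip_of_dist_one h'
  · rintro ⟨i, rfl⟩
    exact adj_flip' i x

theorem wt_adj {x y : Fin n → Bool} (h : (hypercube n).Adj x y) :
    wt y = wt x + 1 ∨ wt x = wt y + 1 := by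
  obtain ⟨i, rfl⟩ := adj_iff_flip.mp h
  rw [wt_eq_hammingDist, wt_eq_hammingDist]
  by_cases hi : x i = false
  · left
    exact hammingDist_flip_of_eq (c := fun _ => false) hi
  · right
    exact hammingDist_flip_of_ne (c := fun _ => false) hi

/-- If every level is dominated by `D` vertices then `2 D` lazy cops win. -/
theorem copsWin_of_guards {D : ℕ} (τ : ℕ → Fin D → (Fin n → Bool))
    (hτ : ∀ m x, wt x = m → ∃ j, τ m j = x ∨ (hypercube n).Adj (τ m j) x) :
    CopsWin (hypercube n) (D + D) := by
  set m0 := n / 2 with hm0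
  let I : Fin D → Fin (D + D) := Fin.castAdd D
  let J : Fin D → Fin (D + D) := Fin.natAdd D
  have hI : Function.Injective I := Fin.castAdd_injective D D
  have hJ : Function.Injective J := Fin.natAdd_injective D D
  have hIJ : ∀ i j, I i ≠ J j := by
    intro i j h
    have := congrArg Fin.val h
    simp [I, J] at this
    omega
  let c0 : Fin (D + D) → (Fin n → Bool) := Fin.addCases (τ m0) (τ m0)
  have hc0 : ∀ j, c0 (I j) = τ m0 j := by
    intro j; simp [c0, I]
  apply copsWin_of_win _ c0
  intro x
  have hg : Guards wt m0 I c0 := by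
    intro y hy
    obtain ⟨j, hj⟩ := hτ m0 y hy
    exact ⟨j, by rw [hc0]; exact hj⟩
  rcases lt_trichotomy (wt x) m0 with h | h | h
  · exact push_down wt (fun a b hab => by rcases wt_adj hab with h | h <;> omega) τ hτ m0 I J hJ hIJ
      hI c0 hg x h
  · exact hg.win h
  · let w : (Fin n → Bool) → ℕ := fun y => n - wt y
    have hw : ∀ a b, (hypercube n).Adj a b → w b ≤ w a + 1 := by
      intro a b hab
      have h1 := wt_le a
      have h2 := wt_le b
      simp only [w]
      rcases wt_adj hab with h | h <;> omega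
    let τ' : ℕ → Fin D → (Fin n → Bool) := fun m => τ (n - m)
    have hτ' : ∀ m y, w y = m → ∃ j, τ' m j = y ∨ (hypercube n).Adj (τ' m j) y := by
      intro m y hy
      apply hτ (n - m) y
      have h1 := wt_le y
      simp only [w] at hy
      omega
    have hg' : Guards w (n - m0) I c0 := by
      intro y hy
      apply hg y
      have h1 := wt_le y
      simp only [w] at hy
      omega
    apply push_down w hw τ' hτ' (n - m0) I J hJ hIJ hI c0 hg' x
    have h1 := wt_le x
    simp only [w]
    omega

/-- number of vertices of a given weight -/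
theorem card_level_le (m : ℕ) :
    (univ.filter (fun x : Fin n → Bool => wt x = m)).card ≤ n.choose m := by
  have h1 : (univ.filter (fun x : Fin n → Bool => wt x = m)).card ≤
      (Finset.powersetCard m (univ : Finset (Fin n))).card := by
    apply Finset.card_le_card_of_injOn (fun x => univ.filter (fun i => x i = true))
    · intro x hx
      rw [Finset.mem_coe, mem_filter] at hx
      rw [Finset.mem_coe, Finset.mem_powersetCard]
      exact ⟨Finset.subset_univ _, hx.2⟩
    · intro x _ y _ hxy
      funext i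
      have : i ∈ univ.filter (fun i => x i = true) ↔ i ∈ univ.filter (fun i => y i = true) := by
        simp only at hxy
        rw [hxy]
      simp only [mem_filter, mem_univ, true_and] at this
      cases hx : x i <;> cases hy : y i <;> simp_all
  rwa [Finset.card_powersetCard, card_univ, Fintype.card_fin] at h1

/-- A syndrome map. -/
theorem exists_syndrome (r : ℕ) (hr : 2 ^ r ≤ n + 1) :
    ∃ φ : (Fin n → Bool) → (Fin r → ZMod 2), ∀ x s, φ x = s ∨ ∃ i, φ (flip i x) = s := by
  classical
  have hcard : Fintype.card {γ : Fin r → ZMod 2 // γ ≠ 0} ≤ Fintype.card (Fin n) := by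
    rw [Fintype.card_subtype_compl, Fintype.card_subtype_eq]
    simp only [Fintype.card_pi, ZMod.card, prod_const, card_univ, Fintype.card_fin]
    omega
  obtain ⟨e⟩ := Function.Embedding.nonempty_of_card_le hcard
  let ℓ : Fin n → (Fin r → ZMod 2) := fun i => if h : ∃ γ, e γ = i then h.choose.1 else 0
  have hℓ : ∀ γ : Fin r → ZMod 2, γ ≠ 0 → ∃ i, ℓ i = γ := by
    intro γ hγ
    refine ⟨e ⟨γ, hγ⟩, ?_⟩
    have h : ∃ γ', e γ' = e ⟨γ, hγ⟩ := ⟨_, rfl⟩
    simp only [ℓ]
    rw [dif_pos h]
    have := e.injective h.choose_spec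
    rw [this]
  have hchar : ∀ γ : Fin r → ZMod 2, γ + γ = 0 := by
    intro γ
    funext i
    exact CharTwo.add_self_eq_zero _
  let φ : (Fin n → Bool) → (Fin r → ZMod 2) := fun x => ∑ i, if x i then ℓ i else 0
  have hφ : ∀ i x, φ (flip i x) = φ x + ℓ i := by
    intro i x
    simp only [φ]
    rw [← Finset.add_sum_erase univ _ (mem_univ i), ← Finset.add_sum_erase univ _ (mem_univ i)]
    have h1 : ∑ j ∈ univ.erase i, (if flip i x j then ℓ j else 0)
        = ∑ j ∈ univ.erase i, (if x j then ℓ j else 0) := by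
      apply Finset.sum_congr rfl
      intro j hj
      rw [flip_ne (Finset.ne_of_mem_erase hj)]
    rw [h1, flip_same]
    cases x i
    · simp [add_comm]
    · simp only [Bool.not_true, Bool.false_eq_true, if_false, if_true]
      rw [add_right_comm, hchar]
  refine ⟨φ, ?_⟩
  intro x s
  by_cases h : φ x = s
  · exact Or.inl h
  · right
    have h2 : s - φ x ≠ 0 := by
      intro hcon
      exact h (sub_eq_zero.mp hcon).symm
    obtain ⟨i, hi⟩ := hℓ _ h2
    refine ⟨i, ?_⟩
    rw [hφ, hi]
    abel

/-- Every level has a small dominating set. -/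
theorem exists_guard (r : ℕ) (hr : 2 ^ r ≤ n + 1) (m : ℕ) :
    ∃ C : Finset (Fin n → Bool), C.card * 2 ^ r ≤ 3 * n.choose (n / 2) ∧
      ∀ x, wt x = m → ∃ y ∈ C, y = x ∨ (hypercube n).Adj y x := by
  classical
  obtain ⟨φ, hφ⟩ := exists_syndrome r hr
  set W : Finset (Fin n → Bool) :=
    univ.filter (fun x => wt x = m ∨ wt x = m + 1 ∨ wt x + 1 = m) with hW
  have hWcard : W.card ≤ 3 * n.choose (n / 2) := by
    have h1 : W ⊆ univ.filter (fun x : Fin n → Bool => wt x = m) ∪
        (univ.filter (fun x : Fin n → Bool => wt x = m + 1) ∪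
          univ.filter (fun x : Fin n → Bool => wt x = m - 1)) := by
      intro x hx
      simp only [hW, mem_filter, mem_univ, true_and, mem_union] at *
      rcases hx with h | h | h
      · exact Or.inl h
      · exact Or.inr (Or.inl h)
      · exact Or.inr (Or.inr (by omega))
    have h2 := Finset.card_le_card h1
    have h3 := Finset.card_union_le (univ.filter (fun x : Fin n → Bool => wt x = m))
      (univ.filter (fun x : Fin n → Bool => wt x = m + 1) ∪
          univ.filter (fun x : Fin n → Bool => wt x = m - 1))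
    have h4 := Finset.card_union_le (univ.filter (fun x : Fin n → Bool => wt x = m + 1))
      (univ.filter (fun x : Fin n → Bool => wt x = m - 1))
    have h5 := (card_level_le (n := n) m).trans (Nat.choose_le_middle m n)
    have h6 := (card_level_le (n := n) (m + 1)).trans (Nat.choose_le_middle (m + 1) n)
    have h7 := (card_level_le (n := n) (m - 1)).trans (Nat.choose_le_middle (m - 1) n)
    omega
  -- pigeonhole
  obtain ⟨s, hs⟩ : ∃ s : Fin r → ZMod 2, (W.filter (fun x => φ x = s)).card * 2 ^ r ≤ W.card := by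
    by_contra hcon
    push Not at hcon
    have h1 : ∑ s : Fin r → ZMod 2, (W.filter (fun x => φ x = s)).card = W.card := by
      rw [← Finset.card_eq_sum_card_fiberwise (fun x _ => mem_univ (φ x))]
    have h2 : ∑ _s : Fin r → ZMod 2, W.card
        < ∑ s : Fin r → ZMod 2, (W.filter (fun x => φ x = s)).card * 2 ^ r :=
      Finset.sum_lt_sum_of_nonempty univ_nonempty (fun s _ => hcon s)
    rw [← Finset.sum_mul, h1] at h2
    simp only [sum_const, card_univ, Fintype.card_pi, ZMod.card, prod_const, Fintype.card_fin,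
      smul_eq_mul] at h2
    rw [mul_comm] at h2
    exact lt_irrefl _ h2
  refine ⟨W.filter (fun x => φ x = s), hs.trans hWcard, ?_⟩
  intro x hx
  rcases hφ x s with h | ⟨i, hi⟩
  · refine ⟨x, ?_, Or.inl rfl⟩
    simp only [hW, mem_filter, mem_univ, true_and]
    exact ⟨Or.inl hx, h⟩
  · refine ⟨flip i x, ?_, Or.inr (adj_flip' i x).symm⟩
    simp only [hW, mem_filter, mem_univ, true_and]
    refine ⟨?_, hi⟩
    rcases wt_adj (adj_flip' i x) with h | h <;> omega

/-- Explicit upper bound. -/
theorem copsWin_explicit (r : ℕ) (hr : 2 ^ r ≤ n + 1) :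
    CopsWin (hypercube n) ((3 * n.choose (n / 2) / 2 ^ r + 1) + (3 * n.choose (n / 2) / 2 ^ r + 1)) := by
  classical
  set D := 3 * n.choose (n / 2) / 2 ^ r + 1 with hD
  have h : ∀ m, ∃ τ : Fin D → (Fin n → Bool),
      ∀ x, wt x = m → ∃ j, τ j = x ∨ (hypercube n).Adj (τ j) x := by
    intro m
    obtain ⟨C, hC, hdom⟩ := exists_guard r hr m
    have hCD : C.card ≤ D := by
      have : C.card ≤ 3 * n.choose (n / 2) / 2 ^ r := by
        rw [Nat.le_div_iff_mul_le (by positivity)]
        exact hC
      omega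
    -- list the elements of C
    let e := C.equivFin
    refine ⟨fun j => if h : j.1 < C.card then (e.symm ⟨j.1, h⟩).1 else fun _ => false, ?_⟩
    intro x hx
    obtain ⟨y, hy, hyx⟩ := hdom x hx
    have hlt : (e ⟨y, hy⟩).1 < C.card := (e ⟨y, hy⟩).2
    refine ⟨⟨(e ⟨y, hy⟩).1, by omega⟩, ?_⟩
    simp only
    rw [dif_pos hlt]
    have : (e.symm ⟨(e ⟨y, hy⟩).1, hlt⟩).1 = y := by
      simp
    rw [this]
    exact hyx
  choose τ hτ using h
  exact copsWin_of_guards τ (fun m x hx => hτ m x hx)

theorem centralBinom_sq_le (m : ℕ) :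
    ((Nat.centralBinom m : ℝ)) ^ 2 * (2 * m + 1) ≤ ((4 : ℝ) ^ m) ^ 2 := by
  induction m with
  | zero => simp
  | succ m ih =>
    have h := Nat.succ_mul_centralBinom_succ m
    have h' : ((m : ℝ) + 1) * (Nat.centralBinom (m + 1) : ℝ)
        = 2 * (2 * m + 1) * (Nat.centralBinom m : ℝ) := by exact_mod_cast h
    set a : ℝ := (Nat.centralBinom m : ℝ) with ha
    set b : ℝ := (Nat.centralBinom (m + 1) : ℝ) with hb
    have hm : (0 : ℝ) < m + 1 := by positivity
    have e : b = 2 * (2 * m + 1) * a / (m + 1) := by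
      field_simp
      linarith
    rw [e]
    have e2 : (2 * (2 * (m : ℝ) + 1) * a / (m + 1)) ^ 2 * (2 * ((m + 1 : ℕ) : ℝ) + 1)
        = (a ^ 2 * (2 * m + 1)) * (4 * (2 * m + 1) * (2 * m + 3) / (m + 1) ^ 2) := by
      push_cast
      field_simp
      ring
    rw [e2]
    have h3 : 4 * (2 * (m : ℝ) + 1) * (2 * m + 3) / (m + 1) ^ 2 ≤ 16 := by
      rw [div_le_iff₀ (by positivity)]
      nlinarith
    have h4 : 0 ≤ 4 * (2 * (m : ℝ) + 1) * (2 * m + 3) / (m + 1) ^ 2 := by positivity
    calc (a ^ 2 * (2 * m + 1)) * (4 * (2 * m + 1) * (2 * m + 3) / (m + 1) ^ 2)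
        ≤ ((4 : ℝ) ^ m) ^ 2 * 16 := by gcongr
      _ = ((4 : ℝ) ^ (m + 1)) ^ 2 := by ring

theorem choose_half_le (n : ℕ) :
    ((n.choose (n / 2) : ℕ) : ℝ) * Real.sqrt n ≤ 2 ^ n := by
  have key : ∀ (a : ℝ) (N : ℕ), 0 ≤ a → a ^ 2 * N ≤ ((2 : ℝ) ^ n) ^ 2 → a * Real.sqrt N ≤ 2 ^ n := by
    intro a N ha h
    have h1 : (a * Real.sqrt N) ^ 2 ≤ ((2 : ℝ) ^ n) ^ 2 := by
      rw [mul_pow, Real.sq_sqrt (Nat.cast_nonneg _)]; exact h
    exact le_of_sq_le_sq h1 (by positivity)
  rcases Nat.even_or_odd' n with ⟨m, hm | hm⟩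
  · have e : n.choose (n / 2) = Nat.centralBinom m := by
      rw [Nat.centralBinom_eq_two_mul_choose, hm, Nat.mul_div_cancel_left _ (by norm_num)]
    rw [e]
    apply key _ _ (by positivity)
    have h := centralBinom_sq_le m
    have e2 : ((2 : ℝ) ^ n) = 4 ^ m := by
      rw [hm, pow_mul]; norm_num
    rw [e2]
    refine le_trans ?_ h
    gcongr
    rw [hm]; push_cast; linarith
  · have e : 2 * n.choose (n / 2) = Nat.centralBinom (m + 1) := by
      have h1 : n / 2 = m := by omega
      rw [Nat.centralBinom_eq_two_mul_choose, show 2 * (m + 1) = (2 * m + 1) + 1 by ring,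
        Nat.choose_succ_succ, h1, hm]
      have : (2 * m + 1).choose (m + 1) = (2 * m + 1).choose m := by
        rw [← Nat.choose_symm_half m]
      simp only [Nat.succ_eq_add_one]
      omega
    apply key _ _ (by positivity)
    have h := centralBinom_sq_le (m + 1)
    have e' : (2 : ℝ) * (n.choose (n / 2) : ℕ) = (Nat.centralBinom (m + 1) : ℝ) := by exact_mod_cast e
    have e2 : ((4 : ℝ) ^ (m + 1)) = 2 * 2 ^ n := by
      rw [hm, show (4 : ℝ) = 2 ^ 2 by norm_num, ← pow_mul]
      rw [show 2 * (m + 1) = (2 * m + 1) + 1 by ring, pow_succ]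
      ring
    rw [← e', e2] at h
    have h2 : ((n.choose (n / 2) : ℕ) : ℝ) ^ 2 * (2 * ((m + 1 : ℕ) : ℝ) + 1) ≤ ((2 : ℝ) ^ n) ^ 2 := by
      nlinarith
    refine le_trans ?_ h2
    gcongr
    rw [hm]; push_cast; linarith

/-- The upper bound. -/
theorem upper_bound (n : ℕ) (hn : 0 < n) :
    ∃ k : ℕ, CopsWin (hypercube n) k ∧ (k : ℝ) ≤ 20 * 2 ^ n / (n : ℝ) ^ (3 / 2 : ℝ) := by
  have hn' : (0 : ℝ) < n := by exact_mod_cast hn
  have hs : 0 < Real.sqrt n := Real.sqrt_pos.mpr hn'
  have hpow : (n : ℝ) ^ (3 / 2 : ℝ) = n * Real.sqrt n := by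
    rw [show (3 / 2 : ℝ) = 1 + 1 / 2 by norm_num, Real.rpow_add hn', Real.rpow_one,
      Real.sqrt_eq_rpow]
  set r := Nat.log 2 (n + 1) with hr
  have hr1 : 2 ^ r ≤ n + 1 := Nat.pow_log_le_self 2 (by omega)
  have hr2 : n + 1 < 2 ^ (r + 1) := Nat.lt_pow_succ_log_self (by norm_num) _
  refine ⟨_, copsWin_explicit r hr1, ?_⟩
  have h1 : ((3 * n.choose (n / 2) / 2 ^ r : ℕ) : ℝ) ≤ 3 * (n.choose (n / 2) : ℕ) / (2 : ℝ) ^ r := by
    have := Nat.cast_div_le (α := ℝ) (m := 3 * n.choose (n / 2)) (n := 2 ^ r)
    push_cast at this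
    exact this
  have h2 : (n : ℝ) ≤ 2 * 2 ^ r := by
    have : (n : ℝ) + 1 < 2 ^ (r + 1) := by exact_mod_cast hr2
    rw [pow_succ] at this
    linarith
  have hr0 : (0 : ℝ) < 2 ^ r := by positivity
  have h3 := choose_half_le n
  have h4 : 3 * ((n.choose (n / 2) : ℕ) : ℝ) / 2 ^ r ≤ 6 * 2 ^ n / (n * Real.sqrt n) := by
    rw [div_le_div_iff₀ hr0 (by positivity)]
    have h5 : 0 ≤ ((n.choose (n / 2) : ℕ) : ℝ) * Real.sqrt n := by positivity
    calc 3 * ((n.choose (n / 2) : ℕ) : ℝ) * (n * Real.sqrt n)
        = 3 * n * (((n.choose (n / 2) : ℕ) : ℝ) * Real.sqrt n) := by ring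
      _ ≤ 3 * (2 * 2 ^ r) * 2 ^ n := by gcongr
      _ = 6 * 2 ^ n * 2 ^ r := by ring
  have h6 : 2 ≤ 8 * 2 ^ n / (n * Real.sqrt n) := by
    rw [le_div_iff₀ (by positivity)]
    have h7 : Real.sqrt n ≤ n := by
      rw [Real.sqrt_le_left (by positivity)]
      have : (1 : ℝ) ≤ n := by exact_mod_cast hn
      nlinarith
    have h8 : (n : ℝ) * n ≤ 4 * 2 ^ n := by
      have h9 : ∀ m : ℕ, m * m ≤ 4 * 2 ^ m := by
        intro m
        induction m with
        | zero => simp
        | succ m ih =>
          rcases Nat.lt_or_ge m 3 with h | h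
          · interval_cases m <;> norm_num
          · rw [pow_succ]; nlinarith
      exact_mod_cast h9 n
    nlinarith
  rw [hpow]
  push_cast at h1 ⊢
  have e : 20 * (2 : ℝ) ^ n / (n * Real.sqrt n)
      = 6 * 2 ^ n / (n * Real.sqrt n) + 6 * 2 ^ n / (n * Real.sqrt n)
        + 8 * 2 ^ n / (n * Real.sqrt n) := by ring
  rw [e]
  linarith

end Cube

end Pool.Agent.helper13.LazyCops
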