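import Mathlib

/-!
Abstract minimisation lemmas for symmetric positive operators on functions on a finite set.
-/

open Finset

namespace Pool.Agent.helper13

variable {V : Type*} [Fintype V] [DecidableEq V]

/-- indicator function of a finite set -/
def ind (A : Finset V) : V → ℝ := fun x => if x ∈ A then 1 else 0

omit [Fintype V] in
theorem ind_nonneg (A : Finset V) : 0 ≤ ind A := by
  intro x; unfold ind; split_ifs <;> simp

omit [Fintype V] in
theorem ind_le_one (A : Finset V) : ind A ≤ 1 := by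
  intro x; unfold ind; split_ifs <;> simp

omit [Fintype V] in
theorem ind_mono {A B : Finset V} (h : A ⊆ B) : ind A ≤ ind B := by
  intro x; unfold ind
  by_cases hA : x ∈ A
  · simp [hA, h hA]
  · simp [hA]; split_ifs <;> simp

omit [Fintype V] in
theorem ind_union {A B : Finset V} (h : Disjoint A B) : ind (A ∪ B) = ind A + ind B := by
  funext x
  have h' := fun hA : x ∈ A => Finset.disjoint_left.mp h hA
  by_cases hA : x ∈ A
  · simp [ind, hA, h' hA]
  · simp [ind, hA]

omit [Fintype V] in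
theorem ind_sdiff {A B : Finset V} (h : B ⊆ A) : ind (A \ B) = ind A - ind B := by
  have h1 : ind ((A \ B) ∪ B) = ind (A \ B) + ind B := ind_union Finset.sdiff_disjoint
  rw [Finset.sdiff_union_of_subset h] at h1
  rw [h1]; simp

theorem ind_compl (A : Finset V) : ind (Aᶜ) = 1 - ind A := by
  funext x
  by_cases hA : x ∈ A <;> simp [ind, hA]

/-- inner product -/
def ip (f g : V → ℝ) : ℝ := ∑ x, f x * g x

omit [DecidableEq V] in
theorem ip_comm (f g : V → ℝ) : ip f g = ip g f := by
  unfold ip; exact Finset.sum_congr rfl (fun _ _ => mul_comm _ _)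

omit [DecidableEq V] in
theorem ip_add_right (f g h : V → ℝ) : ip f (g + h) = ip f g + ip f h := by
  unfold ip; simp [mul_add, Finset.sum_add_distrib]

omit [DecidableEq V] in
theorem ip_sub_right (f g h : V → ℝ) : ip f (g - h) = ip f g - ip f h := by
  unfold ip; simp [mul_sub, Finset.sum_sub_distrib]

omit [DecidableEq V] in
theorem ip_smul_right (c : ℝ) (f g : V → ℝ) : ip f (c • g) = c * ip f g := by
  unfold ip; simp only [Pi.smul_apply, smul_eq_mul, Finset.mul_sum]
  exact Finset.sum_congr rfl (fun _ _ => by ring)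

omit [DecidableEq V] in
theorem ip_smul_left (c : ℝ) (f g : V → ℝ) : ip (c • f) g = c * ip f g := by
  rw [ip_comm, ip_smul_right, ip_comm]

omit [DecidableEq V] in
theorem ip_add_left (f g h : V → ℝ) : ip (f + g) h = ip f h + ip g h := by
  rw [ip_comm, ip_add_right, ip_comm h f, ip_comm h g]

omit [DecidableEq V] in
theorem ip_sub_left (f g h : V → ℝ) : ip (f - g) h = ip f h - ip g h := by
  rw [ip_comm, ip_sub_right, ip_comm h f, ip_comm h g]

omit [DecidableEq V] in
theorem ip_sum_right {ι : Type*} (s : Finset ι) (f : V → ℝ) (g : ι → V → ℝ) :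
    ip f (∑ i ∈ s, g i) = ∑ i ∈ s, ip f (g i) := by
  classical
  unfold ip
  rw [Finset.sum_comm]
  apply Finset.sum_congr rfl
  intro x _
  rw [Finset.sum_apply, Finset.mul_sum]

omit [DecidableEq V] in
theorem ip_nonneg {f g : V → ℝ} (hf : 0 ≤ f) (hg : 0 ≤ g) : 0 ≤ ip f g :=
  Finset.sum_nonneg (fun x _ => mul_nonneg (hf x) (hg x))

omit [DecidableEq V] in
theorem ip_mono_right {f g h : V → ℝ} (hf : 0 ≤ f) (hgh : g ≤ h) : ip f g ≤ ip f h :=
  Finset.sum_le_sum (fun x _ => mul_le_mul_of_nonneg_left (hgh x) (hf x))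

theorem ip_ind_left (A : Finset V) (g : V → ℝ) : ip (ind A) g = ∑ x ∈ A, g x := by
  unfold ip ind
  simp

theorem ip_ind_one (A : Finset V) : ip (ind A) 1 = A.card := by
  rw [ip_ind_left]; simp

/-- symmetric operator -/
def IsSym (A : Module.End ℝ (V → ℝ)) : Prop := ∀ f g, ip f (A g) = ip (A f) g

/-- positivity preserving operator -/
def IsPos (A : Module.End ℝ (V → ℝ)) : Prop := ∀ f : V → ℝ, 0 ≤ f → 0 ≤ A f

omit [DecidableEq V] in
theorem IsSym.pow {A : Module.End ℝ (V → ℝ)} (h : IsSym A) (j : ℕ) : IsSym (A ^ j) := by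
  induction j with
  | zero => intro f g; simp
  | succ j ih =>
    intro f g
    rw [pow_succ]
    simp only [Module.End.mul_apply]
    rw [ih, h]
    have : A ((A ^ j) f) = (A ^ j) (A f) := by
      rw [← Module.End.mul_apply, ← Module.End.mul_apply, ← pow_succ', ← pow_succ]
    rw [this]

omit [DecidableEq V] in
theorem IsSym.sum {ι : Type*} (s : Finset ι) (A : ι → Module.End ℝ (V → ℝ))
    (h : ∀ i ∈ s, IsSym (A i)) : IsSym (∑ i ∈ s, A i) := by
  intro f g
  simp only [LinearMap.sum_apply]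
  rw [ip_sum_right, ip_comm, ip_sum_right]
  apply Finset.sum_congr rfl
  intro i hi
  rw [h i hi, ip_comm]

omit [DecidableEq V] in
theorem IsSym.smul {A : Module.End ℝ (V → ℝ)} (h : IsSym A) (c : ℝ) : IsSym (c • A) := by
  intro f g
  simp only [LinearMap.smul_apply]
  rw [ip_smul_right, ip_smul_left, h]

omit [Fintype V] [DecidableEq V] in
theorem IsPos.pow {A : Module.End ℝ (V → ℝ)} (h : IsPos A) (j : ℕ) : IsPos (A ^ j) := by
  induction j with
  | zero => intro f hf; simpa using hf
  | succ j ih =>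
    intro f hf
    rw [pow_succ]
    simp only [Module.End.mul_apply]
    exact ih _ (h _ hf)

omit [Fintype V] [DecidableEq V] in
theorem IsPos.sum {ι : Type*} (s : Finset ι) (A : ι → Module.End ℝ (V → ℝ))
    (h : ∀ i ∈ s, IsPos (A i)) : IsPos (∑ i ∈ s, A i) := by
  intro f hf
  simp only [LinearMap.sum_apply]
  exact Finset.sum_nonneg (fun i hi => h i hi f hf)

omit [Fintype V] [DecidableEq V] in
theorem IsPos.smul {A : Module.End ℝ (V → ℝ)} (h : IsPos A) {c : ℝ} (hc : 0 ≤ c) :
    IsPos (c • A) := by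
  intro f hf
  simp only [LinearMap.smul_apply]
  exact smul_nonneg hc (h f hf)

omit [Fintype V] [DecidableEq V] in
theorem IsPos.mono {A : Module.End ℝ (V → ℝ)} (h : IsPos A) {f g : V → ℝ} (hfg : f ≤ g) :
    A f ≤ A g := by
  have := h (g - f) (sub_nonneg.mpr hfg)
  rw [map_sub] at this
  exact sub_nonneg.mp this

/-- Closure lemma: enlarge `B'` by at most a factor `5` so that outside `B` the kernel puts at most
`5/8` of its mass in `B`. -/
theorem closure_lemma (K : Module.End ℝ (V → ℝ)) (hs : IsSym K) (hp : IsPos K) (h1 : K 1 = 1)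
    (B' : Finset V) :
    ∃ B : Finset V, B' ⊆ B ∧ B.card ≤ 5 * B'.card ∧ ∀ v ∉ B, K (ind B) v ≤ 5 / 8 := by
  let Ψ : Finset V → ℝ := fun B => 4 * ip (ind B) (K (ind Bᶜ)) + B.card
  obtain ⟨B, hB, hmin⟩ := Finset.exists_min_image (univ.filter (fun B : Finset V => B' ⊆ B)) Ψ
    ⟨B', by simp⟩
  simp only [mem_filter, mem_univ, true_and] at hB hmin
  refine ⟨B, hB, ?_, ?_⟩
  · have h2 := hmin B' (Finset.Subset.refl _)
    have h3 : 0 ≤ ip (ind B) (K (ind Bᶜ)) := ip_nonneg (ind_nonneg _) (hp _ (ind_nonneg _))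
    have h4 : ip (ind B') (K (ind B'ᶜ)) ≤ B'.card := by
      rw [← ip_ind_one]
      apply ip_mono_right (ind_nonneg _)
      rw [← h1]
      exact hp.mono (ind_le_one _)
    have h5 : (B.card : ℝ) ≤ 5 * B'.card := by
      simp only [Ψ] at h2
      linarith
    exact_mod_cast h5
  · intro v hv
    have h2 := hmin (insert v B) (hB.trans (Finset.subset_insert _ _))
    simp only [Ψ] at h2
    have e1 : ind (insert v B) = ind B + ind {v} := by
      rw [Finset.insert_eq, Finset.union_comm]
      exact ind_union (by simpa using hv)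
    have e2 : ind (insert v B)ᶜ = ind Bᶜ - ind {v} := by
      rw [ind_compl, ind_compl, e1]; ring
    have ev : ∀ g : V → ℝ, ip (ind {v}) g = g v := by
      intro g; rw [ip_ind_left]; simp
    have e3 : ip (ind (insert v B)) (K (ind (insert v B)ᶜ))
        = ip (ind B) (K (ind Bᶜ)) - K (ind B) v + K (ind Bᶜ) v - K (ind {v}) v := by
      rw [e1, e2, map_sub, ip_sub_right, ip_add_left, ip_add_left, ev, ev]
      have : ip (ind B) (K (ind {v})) = K (ind B) v := by
        rw [hs, ip_comm, ev]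
      rw [this]
      ring
    have e4 : K (ind Bᶜ) v = 1 - K (ind B) v := by
      rw [ind_compl, map_sub, h1]; simp
    have e5 : 0 ≤ K (ind {v}) v := hp _ (ind_nonneg _) v
    have e6 : ((insert v B).card : ℝ) = B.card + 1 := by
      rw [Finset.card_insert_of_notMem hv]; push_cast; ring
    rw [e3, e4, e6] at h2
    linarith

/-- Minimisation lemma. -/
theorem min_lemma (K : Module.End ℝ (V → ℝ)) (hs : IsSym K) (hp : IsPos K)
    (V0 : Finset V) (lam β : ℝ) (hV0 : (V0ᶜ.card : ℝ) ≤ β) :
    ∃ G : Finset V, G ⊆ V0 ∧ (Gᶜ.card : ℝ) ≤ β ∧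
      ip (ind G) (K (ind (V0 \ G))) ≤ lam * (V0 \ G).card ∧
      ∀ S ⊆ G, ((G \ S)ᶜ.card : ℝ) ≤ β → lam * S.card ≤ ip (ind S) (K (ind (G \ S))) := by
  let Λ : Finset V → ℝ := fun G => ip (ind G) (K (ind (V0 \ G))) + lam * G.card
  obtain ⟨G, hG, hmin⟩ := Finset.exists_min_image
    (univ.filter (fun G : Finset V => G ⊆ V0 ∧ (Gᶜ.card : ℝ) ≤ β)) Λ ⟨V0, by simp [hV0]⟩
  simp only [mem_filter, mem_univ, true_and] at hG hmin
  refine ⟨G, hG.1, hG.2, ?_, ?_⟩
  · have h2 := hmin V0 ⟨Finset.Subset.refl _, hV0⟩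
    simp only [Λ] at h2
    have e1 : ind (V0 \ V0) = (0 : V → ℝ) := by funext x; simp [ind]
    have e2 : ((V0 \ G).card : ℝ) = V0.card - G.card := by
      rw [Finset.card_sdiff_of_subset hG.1, Nat.cast_sub (Finset.card_le_card hG.1)]
    rw [e1, map_zero] at h2
    have e3 : ip (ind V0) (0 : V → ℝ) = 0 := by simp [ip]
    rw [e3] at h2
    rw [e2]
    linarith
  · intro S hS hc
    have h2 := hmin (G \ S) ⟨Finset.sdiff_subset.trans hG.1, hc⟩
    simp only [Λ] at h2
    have e1 : V0 \ (G \ S) = (V0 \ G) ∪ S := by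
      ext x
      simp only [mem_sdiff, mem_union, not_and, not_not]
      constructor
      · rintro ⟨hx, hx2⟩
        by_cases hxG : x ∈ G
        · exact Or.inr (hx2 hxG)
        · exact Or.inl ⟨hx, hxG⟩
      · rintro (⟨hx, hx2⟩ | hx)
        · exact ⟨hx, fun h => absurd h hx2⟩
        · exact ⟨hG.1 (hS hx), fun _ => hx⟩
    have e2 : ind ((V0 \ G) ∪ S) = ind (V0 \ G) + ind S := by
      apply ind_union
      rw [Finset.disjoint_left]
      intro x hx hxS
      simp only [mem_sdiff] at hx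
      exact hx.2 (hS hxS)
    have e3 : ind (G \ S) = ind G - ind S := ind_sdiff hS
    have e4 : ((G \ S).card : ℝ) = G.card - S.card := by
      rw [Finset.card_sdiff_of_subset hS, Nat.cast_sub (Finset.card_le_card hS)]
    rw [e1, e2, e4, map_add, ip_add_right] at h2
    have e5 : ip (ind (G \ S)) (K (ind (V0 \ G)))
        = ip (ind G) (K (ind (V0 \ G))) - ip (ind S) (K (ind (V0 \ G))) := by
      rw [e3, ip_sub_left]
    have e6 : ip (ind (G \ S)) (K (ind S)) = ip (ind S) (K (ind (G \ S))) := by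
      rw [hs, ip_comm]
    have e7 : 0 ≤ ip (ind S) (K (ind (V0 \ G))) :=
      ip_nonneg (ind_nonneg _) (hp _ (ind_nonneg _))
    rw [e5, e6] at h2
    linarith

end Pool.Agent.helper13
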