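import Mathlib

/-!
Basic facts on the cube `Fin n → Bool`, and a Talagrand type isoperimetric inequality.
-/

open Finset

namespace Pool.Agent.helper13

/-- Flip the `i`-th coordinate. -/
def flip {n : ℕ} (i : Fin n) (x : Fin n → Bool) : Fin n → Bool :=
  Function.update x i (!x i)

theorem flip_same {n : ℕ} (i : Fin n) (x : Fin n → Bool) : flip i x i = !x i := by
  simp [flip]

theorem flip_ne {n : ℕ} {i j : Fin n} (h : j ≠ i) (x : Fin n → Bool) : flip i x j = x j := by
  simp [flip, h]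

@[simp] theorem flip_flip {n : ℕ} (i : Fin n) (x : Fin n → Bool) : flip i (flip i x) = x := by
  funext j
  by_cases h : j = i
  · subst h; simp [flip]
  · simp [flip, h]

/-- flipping as an equivalence -/
def flipEquiv {n : ℕ} (i : Fin n) : (Fin n → Bool) ≃ (Fin n → Bool) where
  toFun := flip i
  invFun := flip i
  left_inv := flip_flip i
  right_inv := flip_flip i

theorem flip_injective {n : ℕ} (i : Fin n) : Function.Injective (flip i) :=
  (flipEquiv i).injective

theorem sum_flip {n : ℕ} (i : Fin n) (f : (Fin n → Bool) → ℝ) :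
    ∑ x, f (flip i x) = ∑ x, f x :=
  Equiv.sum_comp (flipEquiv i) f

theorem flip_left_inj {n : ℕ} {i j : Fin n} {x : Fin n → Bool} (h : flip i x = flip j x) :
    i = j := by
  by_contra hne
  have h1 := congrFun h i
  rw [flip_same, flip_ne hne] at h1
  cases hx : x i <;> simp [hx] at h1

/-- Number of neighbours of `x` outside `B`. -/
def hB {n : ℕ} (B : Finset (Fin n → Bool)) (x : Fin n → Bool) : ℕ :=
  (univ.filter (fun i => flip i x ∉ B)).card

/-- The Talagrand functional. -/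
noncomputable def SB {n : ℕ} (B : Finset (Fin n → Bool)) : ℝ :=
  ∑ x ∈ B, Real.sqrt (hB B x)

/-- The comparison function. -/
noncomputable def JJ (α p : ℝ) : ℝ := p * (1 - p ^ α) / (2 * Real.sqrt α)

theorem JJ_nonneg {α p : ℝ} (hα : 0 < α) (hp : 0 ≤ p) (hp1 : p ≤ 1) : 0 ≤ JJ α p := by
  unfold JJ
  have : p ^ α ≤ 1 := Real.rpow_le_one hp hp1 hα.le
  have h2 : 0 ≤ 1 - p ^ α := by linarith
  positivity

theorem bern {α b m : ℝ} (hα : 0 < α) (hα1 : α ≤ 1) (hb : 0 ≤ b) (hm : 0 < m) :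
    b ^ α - m ^ α ≤ α * (m ^ α / m) * (b - m) := by
  have hs : -1 ≤ b / m - 1 := by
    have : 0 ≤ b / m := by positivity
    linarith
  have h := rpow_one_add_le_one_add_mul_self hs hα.le hα1
  have h1 : (1 + (b / m - 1)) = b / m := by ring
  rw [h1, Real.div_rpow hb hm.le] at h
  have hmα : 0 < m ^ α := Real.rpow_pos_of_pos hm α
  have h2 : b ^ α ≤ (1 + α * (b / m - 1)) * m ^ α := by
    rwa [div_le_iff₀ hmα] at h
  have h3 : (1 + α * (b / m - 1)) * m ^ α - m ^ α = α * (m ^ α / m) * (b - m) := by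
    field_simp
    ring
  linarith

theorem two_point {α a b : ℝ} (hα : 0 < α) (hα1 : α ≤ 1) (ha : 0 ≤ a) (hab : a ≤ b)
    (hb1 : b ≤ 1) :
    2 * JJ α ((a + b) / 2) ≤ JJ α a + Real.sqrt (JJ α b ^ 2 + (b - a) ^ 2) := by
  rcases eq_or_lt_of_le (ha.trans hab) with hb0 | hb0
  · have ha0 : a = 0 := by linarith
    subst hb0
    subst ha0
    simp [JJ]
  set m := (a + b) / 2 with hm
  have hm0 : 0 < m := by rw [hm]; linarith
  have hmb : m ≤ b := by rw [hm]; linarith
  have hs : 0 < Real.sqrt α := Real.sqrt_pos.mpr hα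
  have hss : Real.sqrt α * Real.sqrt α = α := Real.mul_self_sqrt hα.le
  have hs1 : Real.sqrt α ≤ 1 := by
    rw [show (1 : ℝ) = Real.sqrt 1 by simp]
    exact Real.sqrt_le_sqrt hα1
  have hbα1 : b ^ α ≤ 1 := Real.rpow_le_one hb0.le hb1 hα.le
  have hbα0 : 0 < b ^ α := Real.rpow_pos_of_pos hb0 α
  have hmα0 : 0 < m ^ α := Real.rpow_pos_of_pos hm0 α
  have hmα : m ^ α ≤ b ^ α := Real.rpow_le_rpow hm0.le hmb hα.le
  -- the defect
  have key1 := bern hα hα1 hb0.le hm0
  have key2 := bern hα hα1 ha hm0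
  have hq : m ^ α / m ≤ 2 * b ^ α / b := by
    rw [div_le_div_iff₀ hm0 hb0]
    have : b ≤ 2 * m := by rw [hm]; linarith
    nlinarith
  have hq0 : 0 < m ^ α / m := by positivity
  have hD : 2 * JJ α m - JJ α a - JJ α b ≤ Real.sqrt α / 2 * b ^ α * ((b - a) ^ 2 / b) := by
    have e1 : 2 * JJ α m - JJ α a - JJ α b
        = (b * (b ^ α - m ^ α) + a * (a ^ α - m ^ α)) / (2 * Real.sqrt α) := by
      unfold JJ
      field_simp
      rw [hm]
      ring
    rw [e1, div_le_iff₀ (by positivity)]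
    have e2 : b * (b ^ α - m ^ α) + a * (a ^ α - m ^ α)
        ≤ α * (m ^ α / m) * ((b - a) ^ 2 / 2) := by
      have h1 := mul_le_mul_of_nonneg_left key1 hb0.le
      have h2 := mul_le_mul_of_nonneg_left key2 ha
      have h3 : b * (α * (m ^ α / m) * (b - m)) + a * (α * (m ^ α / m) * (a - m))
          = α * (m ^ α / m) * ((b - a) ^ 2 / 2) := by
        rw [hm]; ring
      linarith
    have e3 : α * (m ^ α / m) * ((b - a) ^ 2 / 2) ≤ α * (2 * b ^ α / b) * ((b - a) ^ 2 / 2) := by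
      gcongr
    have e4 : α * (2 * b ^ α / b) * ((b - a) ^ 2 / 2)
        = Real.sqrt α / 2 * b ^ α * ((b - a) ^ 2 / b) * (2 * Real.sqrt α) := by
      calc α * (2 * b ^ α / b) * ((b - a) ^ 2 / 2)
          = (Real.sqrt α * Real.sqrt α) * (2 * b ^ α / b) * ((b - a) ^ 2 / 2) := by rw [hss]
        _ = _ := by ring
    linarith
  have hd0 : 0 ≤ b - a := by linarith
  have hdb : (b - a) / b ≤ 1 := by rw [div_le_one hb0]; linarith
  have hD2 : Real.sqrt α / 2 * b ^ α * ((b - a) ^ 2 / b) ≤ (b - a) / 2 := by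
    have h1 : (b - a) ^ 2 / b = (b - a) * ((b - a) / b) := by ring
    rw [h1]
    have h2 : (b - a) * ((b - a) / b) ≤ (b - a) * 1 := by gcongr
    have h3 : Real.sqrt α / 2 * b ^ α ≤ 1 / 2 * 1 := by gcongr
    have h4 : 0 ≤ (b - a) * ((b - a) / b) := by positivity
    calc Real.sqrt α / 2 * b ^ α * ((b - a) * ((b - a) / b))
        ≤ (1 / 2 * 1) * ((b - a) * 1) := by gcongr
      _ = (b - a) / 2 := by ring
  set E := Real.sqrt α / 2 * b ^ α * ((b - a) ^ 2 / b) with hE
  have hE0 : 0 ≤ E := by rw [hE]; positivity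
  have hJb : 0 ≤ JJ α b := JJ_nonneg hα hb0.le hb1
  have hEJ : E * JJ α b ≤ (b - a) ^ 2 / 16 := by
    have e : E * JJ α b = (b - a) ^ 2 / 4 * (b ^ α * (1 - b ^ α)) := by
      rw [hE]; unfold JJ
      field_simp
      ring
    rw [e]
    have h1 : b ^ α * (1 - b ^ α) ≤ 1 / 4 := by nlinarith [sq_nonneg (b ^ α - 1 / 2)]
    have h2 : 0 ≤ (b - a) ^ 2 / 4 := by positivity
    nlinarith
  have hfin : JJ α b + E ≤ Real.sqrt (JJ α b ^ 2 + (b - a) ^ 2) := by
    apply Real.le_sqrt_of_sq_le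
    have : E ^ 2 ≤ ((b - a) / 2) ^ 2 := by gcongr
    nlinarith
  linarith

theorem JJ_zero (α : ℝ) : JJ α 0 = 0 := by simp [JJ]

theorem JJ_one (α : ℝ) : JJ α 1 = 0 := by simp [JJ]

/-- Minkowski inequality for `sqrt (f + g)` where `g` is an indicator. -/
theorem minkowski_ind {ι : Type*} (s : Finset ι) (h : ι → ℕ) (p : ι → Prop) [DecidablePred p] :
    Real.sqrt ((∑ x ∈ s, Real.sqrt (h x)) ^ 2 + ((s.filter p).card : ℝ) ^ 2)
      ≤ ∑ x ∈ s, Real.sqrt (((h x + if p x then 1 else 0 : ℕ) : ℝ)) := by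
  classical
  have h1 : ∀ x, Real.sqrt (((h x + if p x then 1 else 0 : ℕ) : ℝ))
      = ‖((Real.sqrt (h x) : ℝ) : ℂ) + ((if p x then (1 : ℝ) else 0 : ℝ) : ℂ) * Complex.I‖ := by
    intro x
    rw [Complex.norm_add_mul_I]
    congr 1
    rw [Real.sq_sqrt (Nat.cast_nonneg _)]
    split_ifs <;> simp
  have h2 : Real.sqrt ((∑ x ∈ s, Real.sqrt (h x)) ^ 2 + ((s.filter p).card : ℝ) ^ 2)
      = ‖∑ x ∈ s, (((Real.sqrt (h x) : ℝ) : ℂ) +
          ((if p x then (1 : ℝ) else 0 : ℝ) : ℂ) * Complex.I)‖ := by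
    have e : ∑ x ∈ s, (((Real.sqrt (h x) : ℝ) : ℂ) +
          ((if p x then (1 : ℝ) else 0 : ℝ) : ℂ) * Complex.I)
        = ((∑ x ∈ s, Real.sqrt (h x) : ℝ) : ℂ) + (((s.filter p).card : ℝ) : ℂ) * Complex.I := by
      rw [Finset.sum_add_distrib, ← Finset.sum_mul]
      congr 1
      · push_cast; rfl
      · congr 1
        rw [← Complex.ofReal_sum]
        congr 1
        rw [Finset.sum_ite]
        simp
    rw [e, Complex.norm_add_mul_I]
  rw [h2]
  calc _ ≤ ∑ x ∈ s, _ := norm_sum_le _ _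
    _ = _ := by
      apply Finset.sum_congr rfl
      intro x _
      rw [h1]

/-- prepend a coordinate -/
def cc {n : ℕ} (b : Bool) (x : Fin n → Bool) : Fin (n + 1) → Bool :=
  Fin.cons (α := fun _ => Bool) b x

theorem flip_zero_cc {n : ℕ} (b : Bool) (x : Fin n → Bool) : flip 0 (cc b x) = cc (!b) x := by
  unfold flip cc
  rw [Fin.update_cons_zero]
  simp

theorem flip_succ_cc {n : ℕ} (b : Bool) (x : Fin n → Bool) (i : Fin n) :
    flip i.succ (cc b x) = cc b (flip i x) := by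
  unfold flip cc
  rw [Fin.cons_update]
  simp

theorem sum_cc {n : ℕ} (F : (Fin (n + 1) → Bool) → ℝ) :
    ∑ y, F y = ∑ x, F (cc false x) + ∑ x, F (cc true x) := by
  have h := Equiv.sum_comp (Fin.consEquiv (fun _ : Fin (n + 1) => Bool)) F
  rw [← h, Fintype.sum_prod_type, Fintype.sum_bool, add_comm]
  rfl

/-- section -/
def sec {n : ℕ} (b : Bool) (B : Finset (Fin (n + 1) → Bool)) : Finset (Fin n → Bool) :=
  univ.filter (fun x => cc b x ∈ B)

theorem mem_sec {n : ℕ} (b : Bool) (B : Finset (Fin (n + 1) → Bool)) (x : Fin n → Bool) :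
    x ∈ sec b B ↔ cc b x ∈ B := by simp [sec]

theorem sum_sec {n : ℕ} (B : Finset (Fin (n + 1) → Bool)) (F : (Fin (n + 1) → Bool) → ℝ) :
    ∑ y ∈ B, F y = ∑ x ∈ sec false B, F (cc false x) + ∑ x ∈ sec true B, F (cc true x) := by
  have h := sum_cc (fun y => if y ∈ B then F y else 0)
  rw [Finset.sum_ite_mem, Finset.univ_inter] at h
  rw [h]
  unfold sec
  rw [Finset.sum_filter, Finset.sum_filter]

theorem card_sec {n : ℕ} (B : Finset (Fin (n + 1) → Bool)) :
    (B.card : ℝ) = (sec false B).card + (sec true B).card := by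
  have h := sum_sec B (fun _ => (1 : ℝ))
  simpa using h

theorem hB_cc {n : ℕ} (B : Finset (Fin (n + 1) → Bool)) (b : Bool) (x : Fin n → Bool) :
    hB B (cc b x) = hB (sec b B) x + if x ∉ sec (!b) B then 1 else 0 := by
  unfold hB
  rw [Fin.card_filter_univ_succ]
  simp only [flip_zero_cc, flip_succ_cc, mem_sec]
  split_ifs with h
  · rfl
  · rfl

theorem SB_nonneg {n : ℕ} (B : Finset (Fin n → Bool)) : 0 ≤ SB B :=
  Finset.sum_nonneg (fun _ _ => Real.sqrt_nonneg _)

/-- one step, general form -/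
theorem SB_step_aux {n : ℕ} (A A' : Finset (Fin n → Bool)) (hle : A'.card ≤ A.card) :
    SB A' + Real.sqrt (SB A ^ 2 + ((A.card : ℝ) - A'.card) ^ 2)
      ≤ ∑ x ∈ A', Real.sqrt (((hB A' x + if x ∉ A then 1 else 0 : ℕ) : ℝ)) +
        ∑ x ∈ A, Real.sqrt (((hB A x + if x ∉ A' then 1 else 0 : ℕ) : ℝ)) := by
  apply add_le_add
  · apply Finset.sum_le_sum
    intro x _
    apply Real.sqrt_le_sqrt
    exact_mod_cast Nat.le_add_right _ _
  · refine le_trans ?_ (minkowski_ind A (hB A) (fun x => x ∉ A'))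
    apply Real.sqrt_le_sqrt
    have h1 : (A.card : ℝ) - A'.card ≤ ((A.filter (fun x => x ∉ A')).card : ℝ) := by
      have : A.card ≤ (A.filter (fun x => x ∉ A')).card + A'.card := by
        rw [Finset.filter_notMem_eq_sdiff]
        have := Finset.le_card_sdiff A' A
        omega
      have h' : (A.card : ℝ) ≤ (A.filter (fun x => x ∉ A')).card + A'.card := by exact_mod_cast this
      linarith
    have h0 : (0 : ℝ) ≤ (A.card : ℝ) - A'.card := by
      have : (A'.card : ℝ) ≤ A.card := by exact_mod_cast hle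
      linarith
    unfold SB
    gcongr

/-- The isoperimetric inequality. -/
theorem SB_ge {α : ℝ} (hα : 0 < α) (hα1 : α ≤ 1) :
    ∀ (n : ℕ) (B : Finset (Fin n → Bool)), 2 ^ n * JJ α ((B.card : ℝ) / 2 ^ n) ≤ SB B := by
  intro n
  induction n with
  | zero =>
    intro B
    have hc : B.card = 0 ∨ B.card = 1 := by
      have : B.card ≤ Fintype.card (Fin 0 → Bool) := Finset.card_le_univ B
      simp at this
      omega
    rcases hc with h | h <;> simp [h, JJ_zero, JJ_one, SB_nonneg]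
  | succ n ih =>
    intro B
    -- general step from the smaller to the larger section
    have main : ∀ A A' : Finset (Fin n → Bool), A'.card ≤ A.card →
        2 ^ (n + 1) * JJ α (((A.card : ℝ) + A'.card) / 2 ^ (n + 1)) ≤
          ∑ x ∈ A', Real.sqrt (((hB A' x + if x ∉ A then 1 else 0 : ℕ) : ℝ)) +
          ∑ x ∈ A, Real.sqrt (((hB A x + if x ∉ A' then 1 else 0 : ℕ) : ℝ)) := by
      intro A A' hle
      refine le_trans ?_ (SB_step_aux A A' hle)
      have hN : (0 : ℝ) < 2 ^ n := by positivity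
      set a : ℝ := (A'.card : ℝ) / 2 ^ n with ha
      set b : ℝ := (A.card : ℝ) / 2 ^ n with hb
      have ha0 : 0 ≤ a := by rw [ha]; positivity
      have hab : a ≤ b := by
        rw [ha, hb]
        have : (A'.card : ℝ) ≤ A.card := by exact_mod_cast hle
        gcongr
      have hb1 : b ≤ 1 := by
        rw [hb, div_le_one hN]
        have : A.card ≤ Fintype.card (Fin n → Bool) := Finset.card_le_univ A
        simp at this
        exact_mod_cast this
      have htp := two_point hα hα1 ha0 hab hb1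
      have e1 : ((A.card : ℝ) + A'.card) / 2 ^ (n + 1) = (a + b) / 2 := by
        rw [ha, hb, pow_succ]; field_simp; ring
      rw [e1]
      have h2 := ih A'
      have h3 := ih A
      rw [← ha] at h2
      rw [← hb] at h3
      have h4 : 0 ≤ JJ α b := JJ_nonneg hα (ha0.trans hab) hb1
      have h5 : 2 ^ n * Real.sqrt (JJ α b ^ 2 + (b - a) ^ 2) ≤
          Real.sqrt (SB A ^ 2 + ((A.card : ℝ) - A'.card) ^ 2) := by
        have e2 : (2 : ℝ) ^ n * Real.sqrt (JJ α b ^ 2 + (b - a) ^ 2)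
            = Real.sqrt ((2 ^ n * JJ α b) ^ 2 + ((A.card : ℝ) - A'.card) ^ 2) := by
          have : ((2 : ℝ) ^ n * JJ α b) ^ 2 + ((A.card : ℝ) - A'.card) ^ 2
              = (2 ^ n) ^ 2 * (JJ α b ^ 2 + (b - a) ^ 2) := by
            rw [ha, hb]; field_simp
          rw [this, Real.sqrt_mul (by positivity), Real.sqrt_sq hN.le]
        rw [e2]
        apply Real.sqrt_le_sqrt
        gcongr
      have e3 : (2 : ℝ) ^ (n + 1) * JJ α ((a + b) / 2) = 2 ^ n * (2 * JJ α ((a + b) / 2)) := by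
        rw [pow_succ]; ring
      rw [e3]
      calc (2 : ℝ) ^ n * (2 * JJ α ((a + b) / 2))
          ≤ 2 ^ n * (JJ α a + Real.sqrt (JJ α b ^ 2 + (b - a) ^ 2)) := by gcongr
        _ = 2 ^ n * JJ α a + 2 ^ n * Real.sqrt (JJ α b ^ 2 + (b - a) ^ 2) := by ring
        _ ≤ _ := by linarith
    have e : SB B = ∑ x ∈ sec false B,
          Real.sqrt (((hB (sec false B) x + if x ∉ sec true B then 1 else 0 : ℕ) : ℝ)) +
        ∑ x ∈ sec true B,
          Real.sqrt (((hB (sec true B) x + if x ∉ sec false B then 1 else 0 : ℕ) : ℝ)) := by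
      unfold SB
      rw [sum_sec]
      simp only [hB_cc, Bool.not_false, Bool.not_true]
    rw [e, card_sec]
    rcases le_total (sec false B).card (sec true B).card with h | h
    · rw [add_comm ((sec false B).card : ℝ)]
      exact main _ _ h
    · rw [add_comm (∑ x ∈ sec false B, _)]
      exact main _ _ h

/-- small sets have large Talagrand boundary -/
theorem SB_small (Λ : ℕ) (hΛ : 0 < Λ) :
    ∃ ε : ℝ, 0 < ε ∧ ε ≤ 1 ∧ ∀ (n : ℕ) (B : Finset (Fin n → Bool)),
      (B.card : ℝ) ≤ ε * 2 ^ n → (Λ : ℝ) * B.card ≤ SB B := by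
  have hL : (1 : ℝ) ≤ Λ := by exact_mod_cast hΛ
  have hL0 : (0 : ℝ) < Λ := by linarith
  set α : ℝ := 1 / (16 * (Λ : ℝ) ^ 2) with hα
  have hα0 : 0 < α := by rw [hα]; positivity
  have hα1 : α ≤ 1 := by
    rw [hα, div_le_one (by positivity)]
    nlinarith
  refine ⟨(1 / 2 : ℝ) ^ (16 * Λ ^ 2), by positivity, ?_, ?_⟩
  · apply pow_le_one₀ <;> norm_num
  intro n B hB
  have h := SB_ge hα0 hα1 n B
  refine le_trans ?_ h
  set p : ℝ := (B.card : ℝ) / 2 ^ n with hp
  have hN : (0 : ℝ) < 2 ^ n := by positivity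
  have hp0 : 0 ≤ p := by rw [hp]; positivity
  have hpe : p ≤ (1 / 2 : ℝ) ^ (16 * Λ ^ 2) := by
    rw [hp, div_le_iff₀ hN]; exact hB
  have hpα : p ^ α ≤ 1 / 2 := by
    calc p ^ α ≤ ((1 / 2 : ℝ) ^ (16 * Λ ^ 2)) ^ α := Real.rpow_le_rpow hp0 hpe hα0.le
      _ = 1 / 2 := by
        rw [← Real.rpow_natCast, ← Real.rpow_mul (by norm_num)]
        have : ((16 * Λ ^ 2 : ℕ) : ℝ) * α = 1 := by
          rw [hα]; push_cast; field_simp
        rw [this, Real.rpow_one]
  have hsq : Real.sqrt α = 1 / (4 * Λ) := by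
    rw [hα, show (1 : ℝ) / (16 * (Λ : ℝ) ^ 2) = (1 / (4 * Λ)) ^ 2 by field_simp; norm_num]
    exact Real.sqrt_sq (by positivity)
  have e : (2 : ℝ) ^ n * JJ α p = B.card * ((1 - p ^ α) * (2 * Λ)) := by
    unfold JJ
    rw [hsq, hp]
    field_simp
    ring
  rw [e]
  have : (Λ : ℝ) ≤ (1 - p ^ α) * (2 * Λ) := by nlinarith
  have hb : (0 : ℝ) ≤ B.card := by positivity
  nlinarith

end Pool.Agent.helper13
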