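import Pool.Agent.helper13.Walk
import Pool.Agent.helper13.LazyGame

/-!
The robber strategy against few lazy cops on the hypercube.
-/

open Finset

namespace Pool.Agent.helper13.LazyCops

section General

variable {V : Type*} (G : SimpleGraph V) {k : ℕ}

/-- The robber (to move at `x`, cops at `c`) can survive `m` more moves. -/
def Surv : ℕ → (Fin k → V) → V → Prop
  | 0, _, _ => True
  | m + 1, c, x => ∃ x', G.Adj x x' ∧ (∀ i, c i ≠ x' ∧ ¬ G.Adj (c i) x') ∧
      ∀ c', CopTurn G c c' → Surv m c' x'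

theorem Surv.anti {m : ℕ} : ∀ {c : Fin k → V} {x : V}, Surv G (m + 1) c x → Surv G m c x := by
  induction m with
  | zero => intro c x _; trivial
  | succ m ih =>
    intro c x h
    obtain ⟨x', h1, h2, h3⟩ := h
    exact ⟨x', h1, h2, fun c' hc' => ih (h3 c' hc')⟩

theorem Surv.anti' {m m' : ℕ} (hm : m ≤ m') {c : Fin k → V} {x : V} (h : Surv G m' c x) :
    Surv G m c x := by
  induction hm with
  | refl => exact h
  | step _ ih => exact ih (Surv.anti G h)

theorem safe_step [Finite V] {c : Fin k → V} {x : V} (h : ∀ m, Surv G m c x) :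
    ∃ x', G.Adj x x' ∧ (∀ i, c i ≠ x' ∧ ¬ G.Adj (c i) x') ∧
      ∀ c', CopTurn G c c' → ∀ m, Surv G m c' x' := by
  choose f hf using fun m => h (m + 1)
  obtain ⟨x', hx'⟩ := Finite.exists_infinite_fiber f
  have hinf : (f ⁻¹' {x'}).Infinite := Set.infinite_coe_iff.mp hx'
  obtain ⟨m0, hm0⟩ := hinf.nonempty
  simp only [Set.mem_preimage, Set.mem_singleton_iff] at hm0
  refine ⟨x', hm0 ▸ (hf m0).1, hm0 ▸ (hf m0).2.1, ?_⟩
  intro c' hc' m
  obtain ⟨m1, hm1, hlt⟩ := hinf.exists_gt m
  simp only [Set.mem_preimage, Set.mem_singleton_iff] at hm1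
  have := (hf m1).2.2 c' hc'
  rw [hm1] at this
  exact Surv.anti' G hlt.le this

/-- A criterion for the robber to win. -/
theorem evade [Finite V]
    (h : ∀ c0 : Fin k → V, ∃ x0, (∀ i, c0 i ≠ x0 ∧ ¬ G.Adj (c0 i) x0) ∧
      ∀ c1, CopTurn G c0 c1 → ∀ m, Surv G m c1 x0) : ¬ CopsWin G k := by
  rintro ⟨S, hS⟩
  -- state: history and current robber vertex
  let P : List V × V → Prop := fun p =>
    (∀ i, S.pos p.1 i ≠ p.2 ∧ ¬ G.Adj (S.pos p.1 i) p.2) ∧ ∀ m, Surv G m (S.pos (p.2 :: p.1)) p.2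
  have hstep : ∀ p : {p // P p}, ∃ x', G.Adj p.1.2 x' ∧ P (p.1.2 :: p.1.1, x') := by
    rintro ⟨p, hp⟩
    obtain ⟨x', h1, h2, h3⟩ := safe_step G hp.2
    refine ⟨x', h1, h2, ?_⟩
    exact h3 _ (S.legal _ _)
  choose nxt hadj hnxt using hstep
  obtain ⟨x0, hx0, hx0'⟩ := h (S.pos [])
  have hP0 : P ([], x0) := ⟨hx0, hx0' _ (S.legal _ _)⟩
  let st : ℕ → {p // P p} := fun t =>
    Nat.rec ⟨([], x0), hP0⟩ (fun _ p => ⟨(p.1.2 :: p.1.1, nxt p), hnxt p⟩) t
  have hst : ∀ t, st (t + 1) = ⟨((st t).1.2 :: (st t).1.1, nxt (st t)), hnxt (st t)⟩ := fun t => rfl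
  let r : ℕ → V := fun t => (st t).1.2
  have hhist : ∀ t, history r t = (st t).1.1 := by
    intro t
    induction t with
    | zero => rfl
    | succ t ih =>
      rw [history, ih, hst]
  have hr : ∀ t, RobberTurn G (r t) (r (t + 1)) := by
    intro t
    right
    show G.Adj (st t).1.2 (st (t + 1)).1.2
    rw [hst]
    exact hadj (st t)
  obtain ⟨t, ht⟩ := hS r hr
  have hPt := (st t).2
  rcases ht with ⟨i, hi⟩ | ⟨i, hi⟩
  · rw [hhist] at hi
    exact (hPt.1 i).1 hi
  · have hleg := S.legal (history r t) (r t)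
    rw [history] at hi
    rw [hhist] at hi hleg
    rcases hleg with hl | ⟨j, hj, hj'⟩
    · rw [hl] at hi
      exact (hPt.1 i).1 hi
    · by_cases hij : i = j
      · subst hij
        rw [hi] at hj
        exact (hPt.1 i).2 hj
      · rw [hj' i hij] at hi
        exact (hPt.1 i).1 hi

end General

section Cube

variable {n k : ℕ}

theorem not_mem_ball {c x : Fin n → Bool} (h : x ∉ ball c) :
    c ≠ x ∧ ¬ (hypercube n).Adj c x := by
  rw [mem_ball] at h
  constructor
  · rintro rfl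
    simp at h
  · intro hadj
    have : hammingDist c x = 1 := hadj
    rw [hammingDist_comm] at this
    omega

theorem adj_flip (i : Fin n) (x : Fin n → Bool) : (hypercube n).Adj x (flip i x) := by
  show hammingDist x (flip i x) = 1
  have := hammingDist_flip_of_eq (i := i) (x := x) (c := x) rfl
  rw [hammingDist_self] at this
  rw [hammingDist_comm]
  omega

theorem ne_of_copTurn {c c' : Fin n → Bool} {x : Fin n → Bool} (h : (hypercube n).Adj c c')
    (hx : x ∉ ball c) : x ≠ c' := by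
  rintro rfl
  exact (not_mem_ball hx).2 h

/-- A round of the robber strategy. -/
theorem round (hn : 0 < n) (H A M0 : Finset (Fin n → Bool)) (b c1 : Fin k → (Fin n → Bool))
    (K : ℕ) (hH : ∀ i, ball (b i) ⊆ H) (hcov : ∀ i, c1 i = b i ∨ c1 i ∈ M0) (m : ℕ) :
    ∀ r : ℕ, r ≤ K → ∀ (M1 : Finset (Fin n → Bool)) (c : Fin k → (Fin n → Bool))
      (x : Fin n → Bool), (∀ i, c i = c1 i ∨ c i ∈ M1) → x ∉ H → x ∉ M1 →
      3 * (K : ℝ) * r / n < (Top H ^ r) (ind A) x - DM r (M0 ∪ M1) x →
      (∀ (c' : Fin k → (Fin n → Bool)) (x' : Fin n → Bool) (M1' : Finset (Fin n → Bool)),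
        M1 ⊆ M1' → M1'.card ≤ M1.card + r → (∀ i, c' i = c1 i ∨ c' i ∈ M1') → x' ∈ A →
        x' ∉ M1' → DM K (M0 ∪ M1') x' ≤ DM K (M0 ∪ M1) x' + 3 * (K : ℝ) * r / n →
        Surv (hypercube n) m c' x') →
      Surv (hypercube n) (m + r) c x := by
  intro r
  have hn' : (0 : ℝ) < n := by exact_mod_cast hn
  induction r with
  | zero =>
    intro _ M1 c x hc hxH hxM hpot hcont
    simp only [pow_zero, Module.End.one_apply, DM_zero, Pi.zero_apply, sub_zero, Nat.cast_zero,
      mul_zero, zero_div] at hpot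
    have hxA : x ∈ A := by
      by_contra hcon
      simp [ind, hcon] at hpot
    exact hcont c x M1 (Finset.Subset.refl _) (by omega) hc hxA hxM (by simp)
  | succ r ih =>
    intro hr M1 c x hc hxH hxM hpot hcont
    have hKr : (0 : ℝ) ≤ 3 * (K : ℝ) * (r + 1 : ℕ) / n := by positivity
    obtain ⟨i, hiH, hiM, hipot⟩ := potential_step hn H A (M0 ∪ M1) r hxH (lt_of_le_of_lt hKr hpot)
    have hcball : ∀ j, flip i x ∉ ball (c j) := by
      intro j
      rcases hc j with h | h
      · rw [h]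
        rcases hcov j with h' | h'
        · rw [h']; exact fun hcon => hiH (hH j hcon)
        · exact hiM _ (Finset.mem_union_left _ h')
      · exact hiM _ (Finset.mem_union_right _ h)
    have hxM1' : flip i x ∉ M1 := by
      intro hcon
      apply hiM _ (Finset.mem_union_right _ hcon)
      rw [mem_ball]; simp
    refine ⟨flip i x, adj_flip i x, fun j => not_mem_ball (hcball j), ?_⟩
    intro c' hc'
    have hr' : r ≤ K := by omega
    have hKr1 : (3 : ℝ) * r / n ≤ 3 * K / n := by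
      have : (r : ℝ) ≤ K := by exact_mod_cast hr'
      gcongr
    have hK1 : 3 * (K : ℝ) * ((r + 1 : ℕ) : ℝ) / n = 3 * (K : ℝ) * r / n + 3 * K / n := by
      push_cast; ring
    rcases hc' with hc' | ⟨j, hj, hj'⟩
    · subst hc'
      have := ih hr' M1 c' (flip i x) hc hiH hxM1' (by
        have h0 : (0 : ℝ) ≤ 3 * K / n := by positivity
        linarith) (by
        intro c'' x'' M1'' h1 h2 h3 h4 h5 h6
        apply hcont c'' x'' M1'' h1 (by omega) h3 h4 h5
        have h0 : (0 : ℝ) ≤ 3 * K / n := by positivity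
        linarith)
      exact this
    · have hne : flip i x ≠ c' j := ne_of_copTurn hj (hcball j)
      have hun : M0 ∪ insert (c' j) M1 = insert (c' j) (M0 ∪ M1) := by
        rw [Finset.union_insert]
      have := ih hr' (insert (c' j) M1) c' (flip i x) (by
          intro l
          by_cases hl : l = j
          · subst hl; right; simp
          · rw [hj' l hl]
            rcases hc l with h | h
            · left; exact h
            · right; exact Finset.mem_insert_of_mem h) hiH (by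
          rw [Finset.mem_insert, not_or]
          exact ⟨hne, hxM1'⟩) (by
          rw [hun]
          have h1 := DM_insert_le hn r (M0 ∪ M1) hne
          linarith) (by
          intro c'' x'' M1'' h1 h2 h3 h4 h5 h6
          have hsub : M1 ⊆ M1'' := (Finset.subset_insert _ _).trans h1
          apply hcont c'' x'' M1'' hsub _ h3 h4 h5
          · have hne2 : x'' ≠ c' j := by
              rintro rfl
              exact h5 (h1 (Finset.mem_insert_self _ _))
            rw [hun] at h6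
            have h7 := DM_insert_le hn K (M0 ∪ M1) hne2
            linarith
          · have := Finset.card_insert_le (c' j) M1
            omega)
      exact this

/-- hot set of a placement -/
def hot (b : Fin k → (Fin n → Bool)) : Finset (Fin n → Bool) := univ.biUnion (fun i => ball (b i))

theorem ball_subset_hot (b : Fin k → (Fin n → Bool)) (i : Fin k) : ball (b i) ⊆ hot b :=
  Finset.subset_biUnion_of_mem (fun i => ball (b i)) (mem_univ i)

theorem card_hot_le (b : Fin k → (Fin n → Bool)) : (hot b).card ≤ k * (n + 1) := by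
  unfold hot
  refine Finset.card_biUnion_le.trans ?_
  calc ∑ i : Fin k, (ball (b i)).card ≤ ∑ _i : Fin k, (n + 1) :=
        Finset.sum_le_sum (fun i _ => card_ball_le _)
    _ = k * (n + 1) := by simp

/-- good sets -/
structure Good (β : ℝ) (b : Fin k → (Fin n → Bool)) (G : Finset (Fin n → Bool)) : Prop where
  disj : Disjoint G (hot b)
  card : (Gᶜ.card : ℝ) ≤ β * 2 ^ n
  exp : ∀ S ⊆ G, (S.card : ℝ) ≤ β * 2 ^ n →
    (1738 : ℝ) / n * S.card ≤ ip (ind S) (Kav (Top (hot b)) 10 (ind (G \ S)))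

/-- the reachability sets -/
noncomputable def WW (β : ℝ) (b : Fin k → (Fin n → Bool)) (G G1 : Finset (Fin n → Bool)) :
    ℕ → Finset (Fin n → Bool)
  | 0 => G ∩ G1
  | t + 1 => WW β b G G1 t ∪
      G.filter (fun v => (1737 : ℝ) / n ≤ Kav (Top (hot b)) 10 (ind (WW β b G G1 t)) v)

theorem WW_subset (β : ℝ) (b : Fin k → (Fin n → Bool)) (G G1 : Finset (Fin n → Bool)) (t : ℕ) :
    WW β b G G1 t ⊆ G := by
  induction t with
  | zero => exact Finset.inter_subset_left
  | succ t ih =>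
    rw [WW]
    exact Finset.union_subset ih (Finset.filter_subset _ _)

theorem WW_zero_subset (β : ℝ) (b : Fin k → (Fin n → Bool)) (G G1 : Finset (Fin n → Bool))
    (t : ℕ) : G ∩ G1 ⊆ WW β b G G1 t := by
  induction t with
  | zero => exact Finset.Subset.refl _
  | succ t ih => rw [WW]; exact ih.trans Finset.subset_union_left

theorem Kav_le_one (hn : 0 < n) (H A : Finset (Fin n → Bool)) (j : ℕ) (x : Fin n → Bool) :
    Kav (Top H) j (ind A) x ≤ 1 := by
  rw [Kav_apply]
  have : ∑ i ∈ range 8, (Top H ^ (j + i)) (ind A) x ≤ ∑ _i ∈ range 8, (1 : ℝ) :=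
    Finset.sum_le_sum (fun i _ => Top_pow_le_one hn H _ (ind_nonneg A) (ind_le_one A) x)
  simp at this
  linarith

theorem WW_card (hn : 0 < n) {β : ℝ} {b : Fin k → (Fin n → Bool)} {G G1 : Finset (Fin n → Bool)}
    (hG : Good β b G) (hG1 : (G1ᶜ.card : ℝ) ≤ β * 2 ^ n) (t : ℕ) :
    ((G \ WW β b G G1 t).card : ℝ) ≤ (1 - 1 / (n : ℝ)) ^ t * 2 ^ n := by
  have hn' : (0 : ℝ) < n := by exact_mod_cast hn
  have hn1 : (1 : ℝ) ≤ n := by exact_mod_cast hn
  have hq : 0 ≤ 1 - 1 / (n : ℝ) := by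
    have : 1 / (n : ℝ) ≤ 1 := by rw [div_le_one hn']; exact hn1
    linarith
  induction t with
  | zero =>
    simp only [pow_zero, one_mul]
    have : (G \ WW β b G G1 0).card ≤ Fintype.card (Fin n → Bool) := Finset.card_le_univ _
    simp at this
    exact_mod_cast this
  | succ t ih =>
    set W := WW β b G G1 t with hW
    set S := G \ W with hS
    have hWG : W ⊆ G := WW_subset β b G G1 t
    have hGS : G \ S = W := by
      rw [hS, Finset.sdiff_sdiff_eq_self hWG]
    have hScard : (S.card : ℝ) ≤ β * 2 ^ n := by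
      have : S ⊆ G1ᶜ := by
        intro x hx
        rw [hS, mem_sdiff] at hx
        rw [mem_compl]
        intro hx1
        exact hx.2 (WW_zero_subset β b G G1 t (Finset.mem_inter.mpr ⟨hx.1, hx1⟩))
      have h2 : (S.card : ℝ) ≤ G1ᶜ.card := by exact_mod_cast Finset.card_le_card this
      linarith
    have hexp := hG.exp S Finset.sdiff_subset hScard
    rw [hGS, ip_ind_left] at hexp
    set g : (Fin n → Bool) → ℝ := Kav (Top (hot b)) 10 (ind W) with hg
    set S' := S.filter (fun v => (1737 : ℝ) / n ≤ g v) with hS'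
    have hsum : ∑ v ∈ S, g v ≤ S'.card + 1737 / n * S.card := by
      have h1 : ∀ v ∈ S, g v ≤ (if (1737 : ℝ) / n ≤ g v then (1 : ℝ) else 0) + 1737 / n := by
        intro v _
        split_ifs with h
        · have := Kav_le_one hn (hot b) W 10 v
          have h0 : (0 : ℝ) ≤ 1737 / n := by positivity
          rw [← hg] at this
          linarith
        · rw [not_le] at h
          linarith
      refine (Finset.sum_le_sum h1).trans ?_
      rw [Finset.sum_add_distrib, ← Finset.sum_filter, ← hS']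
      simp only [sum_const, nsmul_eq_mul, mul_one]
      linarith
    have hS'card : (S.card : ℝ) / n ≤ S'.card := by
      have e : (1738 : ℝ) / n * S.card = S.card / n + 1737 / n * S.card := by ring
      linarith
    have hnew : (G \ WW β b G G1 (t + 1)) ⊆ S \ S' := by
      intro x hx
      rw [mem_sdiff, WW, mem_union, not_or] at hx
      rw [mem_sdiff, hS, mem_sdiff, hS', mem_filter, hS, mem_sdiff]
      refine ⟨⟨hx.1, hx.2.1⟩, ?_⟩
      rintro ⟨_, h2⟩
      apply hx.2.2
      rw [mem_filter]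
      exact ⟨hx.1, h2⟩
    have hcard : ((G \ WW β b G G1 (t + 1)).card : ℝ) ≤ S.card - S'.card := by
      have h1 : (G \ WW β b G G1 (t + 1)).card ≤ (S \ S').card := Finset.card_le_card hnew
      have h2 : ((S \ S').card : ℝ) = S.card - S'.card := by
        rw [Finset.card_sdiff_of_subset (Finset.filter_subset _ _),
          Nat.cast_sub (Finset.card_le_card (Finset.filter_subset _ _))]
      rw [← h2]
      exact_mod_cast h1
    have h3 : (S.card : ℝ) - S'.card ≤ (1 - 1 / (n : ℝ)) * S.card := by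
      have : (1 - 1 / (n : ℝ)) * S.card = S.card - S.card / n := by ring
      linarith
    calc ((G \ WW β b G G1 (t + 1)).card : ℝ) ≤ (1 - 1 / (n : ℝ)) * S.card := by linarith
      _ ≤ (1 - 1 / (n : ℝ)) * ((1 - 1 / (n : ℝ)) ^ t * 2 ^ n) := by gcongr
      _ = (1 - 1 / (n : ℝ)) ^ (t + 1) * 2 ^ n := by ring

theorem WW_full (hn : 0 < n) {β : ℝ} {b : Fin k → (Fin n → Bool)} {G G1 : Finset (Fin n → Bool)}
    (hG : Good β b G) (hG1 : (G1ᶜ.card : ℝ) ≤ β * 2 ^ n) : WW β b G G1 (n ^ 2) = G := by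
  apply Finset.Subset.antisymm (WW_subset _ _ _ _ _)
  have h := WW_card hn hG hG1 (n ^ 2)
  have hn' : (0 : ℝ) < n := by exact_mod_cast hn
  have hn1 : (1 : ℝ) ≤ n := by exact_mod_cast hn
  have hq : 0 ≤ 1 - 1 / (n : ℝ) := by
    have : 1 / (n : ℝ) ≤ 1 := by rw [div_le_one hn']; exact hn1
    linarith
  have h1 : (1 - 1 / (n : ℝ)) ≤ Real.exp (-(1 / n)) := by
    have := Real.add_one_le_exp (-(1 / (n : ℝ)))
    linarith
  have h2 : (1 - 1 / (n : ℝ)) ^ (n ^ 2) * 2 ^ n < 1 := by
    calc (1 - 1 / (n : ℝ)) ^ (n ^ 2) * 2 ^ n ≤ (Real.exp (-(1 / n))) ^ (n ^ 2) * 2 ^ n := by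
          gcongr
      _ = (Real.exp (-1) * 2) ^ n := by
          rw [← Real.exp_nat_mul, mul_pow, ← Real.exp_nat_mul]
          congr 2
          push_cast
          field_simp
      _ < 1 := by
          apply pow_lt_one₀ (by positivity) _ (by omega)
          rw [Real.exp_neg]
          have : (2 : ℝ) < Real.exp 1 := by
            have := Real.exp_one_gt_d9; linarith
          rw [inv_mul_lt_iff₀ (Real.exp_pos 1)]
          linarith
  have h3 : ((G \ WW β b G G1 (n ^ 2)).card : ℝ) < 1 := lt_of_le_of_lt h h2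
  have h4 : (G \ WW β b G G1 (n ^ 2)).card = 0 := by
    have : (G \ WW β b G G1 (n ^ 2)).card < 1 := by exact_mod_cast h3
    omega
  rw [Finset.card_eq_zero, Finset.sdiff_eq_empty_iff_subset] at h4
  exact h4

/-- epoch start states -/
def ES (β : ℝ) (c : Fin k → (Fin n → Bool)) (x : Fin n → Bool) : Prop :=
  ∃ (b : Fin k → (Fin n → Bool)) (G M : Finset (Fin n → Bool)), Good β b G ∧
    M.card ≤ 17 * (n ^ 2 + 1) ∧ (∀ i, c i = b i ∨ c i ∈ M) ∧ x ∈ G ∧ x ∉ M ∧
    DM 17 M x ≤ 868 / n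

/-- one round towards a set `W'` which is reached with probability at least `1737 / n` -/
theorem one_round (hn : 10 ^ 13 ≤ n) (W' M0 M1 : Finset (Fin n → Bool))
    (b c1 c : Fin k → (Fin n → Bool)) (hcov0 : ∀ i, c1 i = b i ∨ c1 i ∈ M0)
    (hM0 : M0.card ≤ 17 * (n ^ 2 + 1)) (hM1 : M1.card ≤ 17 * (n ^ 2 + 1))
    (hcov : ∀ i, c i = c1 i ∨ c i ∈ M1) (x : Fin n → Bool) (hxH : x ∉ hot b) (hxM : x ∉ M1)
    (hD : DM 17 (M0 ∪ M1) x ≤ 868 / n)
    (hW : (1737 : ℝ) / n ≤ Kav (Top (hot b)) 10 (ind W') x) (m : ℕ)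
    (hcont : ∀ (c' : Fin k → (Fin n → Bool)) (x' : Fin n → Bool) (M1' : Finset (Fin n → Bool)),
        M1'.card ≤ M1.card + 17 → (∀ i, c' i = c1 i ∨ c' i ∈ M1') → x' ∈ W' →
        x' ∉ M1' → DM 17 (M0 ∪ M1') x' ≤ 868 / n → Surv (hypercube n) m c' x') :
    Surv (hypercube n) (m + 1) c x := by
  have hn0 : 0 < n := by omega
  have hn' : (0 : ℝ) < n := by exact_mod_cast hn0
  have hnbig : (10 : ℝ) ^ 13 ≤ n := by exact_mod_cast hn
  -- choose the length
  obtain ⟨j, hj, hjW⟩ : ∃ j ∈ range 8, (1737 : ℝ) / n ≤ (Top (hot b) ^ (10 + j)) (ind W') x := by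
    by_contra hcon
    push Not at hcon
    rw [Kav_apply] at hW
    have : ∑ j ∈ range 8, (Top (hot b) ^ (10 + j)) (ind W') x < ∑ _j ∈ range 8, (1737 : ℝ) / n :=
      Finset.sum_lt_sum_of_nonempty ⟨0, by simp⟩ hcon
    simp only [sum_const, card_range, nsmul_eq_mul] at this
    push_cast at this
    linarith
  rw [mem_range] at hj
  set F : Finset (Fin n → Bool) := univ.filter (fun u => 1 / (n : ℝ) < DM 17 (M0 ∪ M1) u) with hF
  have hdis := dispersal hn0 (M0 ∪ M1) (10 + j) 17 (by omega) x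
  rw [← hF] at hdis
  have hMcard : (((M0 ∪ M1).card : ℕ) : ℝ) ≤ 68 * n ^ 2 := by
    have h1 : (M0 ∪ M1).card ≤ 17 * (n ^ 2 + 1) + 17 * (n ^ 2 + 1) :=
      (Finset.card_union_le _ _).trans (by omega)
    have h2 : 17 * (n ^ 2 + 1) + 17 * (n ^ 2 + 1) ≤ 68 * n ^ 2 := by nlinarith
    exact_mod_cast h1.trans h2
  have hF1 : (Pop n ^ (10 + j)) (ind F) x ≤ 1 / n := by
    refine hdis.trans ?_
    rw [div_le_div_iff₀ (by positivity) hn']
    have hfac : (Nat.factorial 13 : ℝ) = 6227020800 := by norm_num [Nat.factorial]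
    rw [hfac]
    push_cast
    have h1 : ((M0 ∪ M1).card : ℝ) * 17 * 6227020800 * n ≤ (68 * n ^ 2) * 17 * 6227020800 * n := by
      gcongr
    have h2 : (68 * (n : ℝ) ^ 2) * 17 * 6227020800 * n ≤ 1 * n ^ 4 := by
      have h3 : (68 * 17 * 6227020800 : ℝ) ≤ n := le_trans (by norm_num) hnbig
      have h4 : (68 * (n : ℝ) ^ 2) * 17 * 6227020800 * n = (68 * 17 * 6227020800) * n ^ 3 := by ring
      rw [h4]
      have h5 : 1 * (n : ℝ) ^ 4 = n * n ^ 3 := by ring
      rw [h5]
      gcongr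
    linarith
  -- success mass
  set A := W' \ F with hA
  have hAmass : (1736 : ℝ) / n ≤ (Top (hot b) ^ (10 + j)) (ind A) x := by
    have h1 : ind W' ≤ ind A + ind F := by
      intro u
      simp only [ind, hA, mem_sdiff, Pi.add_apply]
      by_cases h1 : u ∈ W' <;> by_cases h2 : u ∈ F <;> simp [h1, h2]
    have h2 := ((Top_pos (hot b)).pow (10 + j)).mono h1 x
    rw [map_add, Pi.add_apply] at h2
    have h3 := Top_pow_le_Pop_pow (hot b) (10 + j) (ind_nonneg F) x
    have e : (1737 : ℝ) / n = 1736 / n + 1 / n := by ring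
    linarith
  have hround := round hn0 (hot b) A M0 b c1 17 (ball_subset_hot b) hcov0 m (10 + j) (by omega)
    M1 c x hcov hxH hxM (by
      have h1 := DM_mono (show 10 + j ≤ 17 by omega) (M0 ∪ M1) x
      have h2 : (3 : ℝ) * ((17 : ℕ) : ℝ) * ((10 + j : ℕ) : ℝ) / n ≤ 867 / n := by
        have : ((10 + j : ℕ) : ℝ) ≤ 17 := by exact_mod_cast (show 10 + j ≤ 17 by omega)
        push_cast at this ⊢
        gcongr
        linarith
      have h3 : (1736 : ℝ) / n = 868 / n + 867 / n + 1 / n := by ring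
      have h4 : (0 : ℝ) < 1 / n := by positivity
      linarith) (by
      intro c' x' M1' h1 h2 h3 h4 h5 h6
      rw [hA, mem_sdiff] at h4
      apply hcont c' x' M1' (by omega) h3 h4.1 h5
      have h7 : DM 17 (M0 ∪ M1) x' ≤ 1 / n := by
        by_contra hcon
        rw [not_le] at hcon
        exact h4.2 (by rw [hF, mem_filter]; exact ⟨mem_univ _, hcon⟩)
      have h8 : (3 : ℝ) * ((17 : ℕ) : ℝ) * ((10 + j : ℕ) : ℝ) / n ≤ 867 / n := by
        have : ((10 + j : ℕ) : ℝ) ≤ 17 := by exact_mod_cast (show 10 + j ≤ 17 by omega)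
        push_cast at this ⊢
        gcongr
        linarith
      have h9 : (868 : ℝ) / n = 1 / n + 867 / n := by ring
      linarith)
  exact Surv.anti' _ (by omega) hround

/-- Main dynamic theorem: from an epoch start state the robber survives. -/
theorem epoch (hn : 10 ^ 13 ≤ n) {β : ℝ}
    (hgood : ∀ b : Fin k → (Fin n → Bool), ∃ G, Good β b G) (hβ : 1 ≤ β * 2 ^ n) :
    ∀ (m : ℕ) (c : Fin k → (Fin n → Bool)) (x : Fin n → Bool), ES β c x →
      Surv (hypercube n) m c x := by
  have hn0 : 0 < n := by omega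
  have hn' : (0 : ℝ) < n := by exact_mod_cast hn0
  intro m
  induction m using Nat.strong_induction_on with
  | _ m IH =>
    intro c x hES
    rcases m with _ | m
    · trivial
    obtain ⟨b, G, M0, hG, hM0, hcov0, hxG, hxM0, hD0⟩ := hES
    obtain ⟨G1, hG1⟩ := hgood c
    have hfull := WW_full hn0 hG hG1.card
    -- descending claim
    have claim : ∀ t : ℕ, ∀ m' : ℕ, m' < m + 1 → ∀ (c' : Fin k → (Fin n → Bool))
        (x' : Fin n → Bool) (M1 : Finset (Fin n → Bool)),
        M1.card + 17 * t ≤ 17 * (n ^ 2 + 1) → (∀ i, c' i = c i ∨ c' i ∈ M1) →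
        x' ∈ WW β b G G1 t → x' ∉ M1 → DM 17 (M0 ∪ M1) x' ≤ 868 / n →
        Surv (hypercube n) m' c' x' := by
      intro t
      induction t with
      | zero =>
        intro m' hm' c' x' M1 h1 h2 h3 h4 h5
        apply IH m' hm'
        rw [WW, mem_inter] at h3
        refine ⟨c, G1, M1, hG1, by omega, h2, h3.2, h4, ?_⟩
        exact (DM_mono_set 17 Finset.subset_union_right x').trans h5
      | succ t iht =>
        intro m' hm' c' x' M1 h1 h2 h3 h4 h5
        rw [WW, mem_union] at h3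
        rcases h3 with h3 | h3
        · exact iht m' hm' c' x' M1 (by omega) h2 h3 h4 h5
        · rw [mem_filter] at h3
          have hxH : x' ∉ hot b := Finset.disjoint_left.mp hG.disj h3.1
          apply Surv.anti
          apply one_round hn (WW β b G G1 t) M0 M1 b c c' hcov0 hM0 (by omega) h2 x' hxH h4 h5
            h3.2 m'
          intro c'' x'' M1'' g1 g2 g3 g4 g5
          exact iht m' hm' c'' x'' M1'' (by omega) g2 g3 g4 g5
    -- first round
    have hxH : x ∉ hot b := Finset.disjoint_left.mp hG.disj hxG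
    have hself : (1737 : ℝ) / n ≤ Kav (Top (hot b)) 10 (ind (WW β b G G1 (n ^ 2))) x := by
      rw [hfull]
      have h1 := hG.exp {x} (by simpa using hxG) (by simpa using hβ)
      rw [ip_ind_left] at h1
      simp only [card_singleton, Nat.cast_one, mul_one, sum_singleton] at h1
      have h2 := (Kav_pos (Top_pos (hot b)) 10).mono
        (ind_mono (Finset.sdiff_subset (s := G) (t := {x}))) x
      have h3 : (1737 : ℝ) / n ≤ 1738 / n := by gcongr; norm_num
      linarith
    apply one_round hn (WW β b G G1 (n ^ 2)) M0 ∅ b c c hcov0 hM0 (by simp) (by simp) x hxH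
      (by simp) (by simpa using hD0) hself m
    intro c'' x'' M1'' g1 g2 g3 g4 g5
    exact claim (n ^ 2) m (by omega) c'' x'' M1'' (by simp at g1; omega) g2 g3 g4 g5

/-- existence of good sets for few cops -/
theorem exists_good : ∃ c β : ℝ, 0 < c ∧ 0 < β ∧ β < 1 ∧ ∀ n : ℕ, 0 < n → ∀ k : ℕ,
    (k : ℝ) ≤ c * 2 ^ n / (n : ℝ) ^ (3 / 2 : ℝ) →
    ∀ b : Fin k → (Fin n → Bool), ∃ G, Good β b G := by
  obtain ⟨c, β, hc, hβ0, hβ1, h⟩ := static_structure 9 1738 (by norm_num)
  refine ⟨c / 2, β, by positivity, hβ0, hβ1, ?_⟩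
  intro n hn k hk b
  have hn' : (0 : ℝ) < n := by exact_mod_cast hn
  have hn1 : (1 : ℝ) ≤ n := by exact_mod_cast hn
  have hs : 0 < Real.sqrt n := Real.sqrt_pos.mpr hn'
  have hpow : (n : ℝ) ^ (3 / 2 : ℝ) = n * Real.sqrt n := by
    rw [show (3 / 2 : ℝ) = 1 + 1 / 2 by norm_num, Real.rpow_add hn', Real.rpow_one,
      Real.sqrt_eq_rpow]
  have hH : ((hot b).card : ℝ) ≤ c * 2 ^ n / Real.sqrt n := by
    have h1 : ((hot b).card : ℝ) ≤ k * (n + 1) := by exact_mod_cast card_hot_le b
    have h2 : (k : ℝ) * (n + 1) ≤ k * (2 * n) := by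
      have : (0 : ℝ) ≤ k := by positivity
      gcongr
      linarith
    have h3 : (k : ℝ) * (2 * n) ≤ (c / 2 * 2 ^ n / (n : ℝ) ^ (3 / 2 : ℝ)) * (2 * n) := by gcongr
    have h4 : (c / 2 * 2 ^ n / (n : ℝ) ^ (3 / 2 : ℝ)) * (2 * n) = c * 2 ^ n / Real.sqrt n := by
      rw [hpow]; field_simp
    linarith
  obtain ⟨G, hG1, hG2, hG3⟩ := h n hn (hot b) hH
  refine ⟨G, hG1, hG2, ?_⟩
  intro S hS hSc
  exact_mod_cast hG3 S hS hSc

/-- The lower bound. -/
theorem lower_bound : ∃ c : ℝ, 0 < c ∧ ∃ n0 : ℕ, ∀ n : ℕ, n0 ≤ n → ∀ k : ℕ,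
    (k : ℝ) ≤ c * 2 ^ n / (n : ℝ) ^ (3 / 2 : ℝ) → ¬ CopsWin (hypercube n) k := by
  obtain ⟨c, β, hc, hβ0, hβ1, h⟩ := exists_good
  -- need `1 ≤ β 2^n`
  obtain ⟨n1, hn1⟩ : ∃ n1 : ℕ, ∀ n ≥ n1, 1 ≤ β * 2 ^ n := by
    have := tendsto_pow_atTop_atTop_of_one_lt (show (1 : ℝ) < 2 by norm_num)
    rw [Filter.tendsto_atTop_atTop] at this
    obtain ⟨n1, hn1⟩ := this (1 / β)
    refine ⟨n1, fun n hn => ?_⟩
    have := hn1 n hn
    rw [div_le_iff₀ hβ0] at this
    linarith
  refine ⟨c, hc, max (10 ^ 13) n1, ?_⟩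
  intro n hn k hk
  have hn13 : 10 ^ 13 ≤ n := (le_max_left _ _).trans hn
  have hn0 : 0 < n := by omega
  have hn' : (0 : ℝ) < n := by exact_mod_cast hn0
  have hβn : 1 ≤ β * 2 ^ n := hn1 n ((le_max_right _ _).trans hn)
  have hgood := h n hn0 k hk
  apply evade
  intro c0
  obtain ⟨G, hG⟩ := hgood c0
  have hGne : G.Nonempty := by
    rw [Finset.nonempty_iff_ne_empty]
    rintro rfl
    have h1 := hG.card
    have h2 : (((∅ : Finset (Fin n → Bool))ᶜ.card : ℕ) : ℝ) = 2 ^ n := by
      simp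
    rw [h2] at h1
    have : (0 : ℝ) < 2 ^ n := by positivity
    nlinarith
  obtain ⟨x0, hx0⟩ := hGne
  have hx0H : x0 ∉ hot c0 := Finset.disjoint_left.mp hG.disj hx0
  have hball : ∀ i, x0 ∉ ball (c0 i) := fun i hcon => hx0H (ball_subset_hot c0 i hcon)
  refine ⟨x0, fun i => not_mem_ball (hball i), ?_⟩
  intro c1 hc1 m
  apply epoch hn13 hgood hβn
  rcases hc1 with hc1 | ⟨j, hj, hj'⟩
  · refine ⟨c0, G, ∅, hG, by simp, fun i => by left; rw [hc1], hx0, by simp, ?_⟩
    unfold DM
    simp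
    positivity
  · have hne : x0 ≠ c1 j := ne_of_copTurn hj (hball j)
    refine ⟨c0, G, {c1 j}, hG, ?_, ?_, hx0, by simpa using hne, ?_⟩
    · simp
      nlinarith
    · intro i
      by_cases hij : i = j
      · right; simp [hij]
      · left; exact hj' i hij
    · have h1 : DM 17 {c1 j} x0 ≤ 3 * (17 : ℕ) / n := by
        unfold DM
        rw [Finset.sum_singleton]
        exact Dv_le hn0 17 hne
      refine h1.trans ?_
      push_cast
      gcongr
      norm_num

end Cube

end Pool.Agent.helper13.LazyCops
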