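import Pool.Agent.helper13.CubeIso
import Pool.Agent.helper13.Abs

/-!
Random walk operators on the cube and the static structure theorem.
-/

open Finset

namespace Pool.Agent.helper13

variable {n : ℕ}

/-- averaging over neighbours -/
noncomputable def Pop (n : ℕ) : Module.End ℝ ((Fin n → Bool) → ℝ) where
  toFun f := fun x => (∑ i, f (flip i x)) / n
  map_add' f g := by
    funext x; simp [Finset.sum_add_distrib, add_div]
  map_smul' c f := by
    funext x; simp only [Pi.smul_apply, smul_eq_mul, RingHom.id_apply]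
    rw [← Finset.mul_sum, mul_div_assoc]

/-- averaging over neighbours, killed on `H` -/
noncomputable def Top (H : Finset (Fin n → Bool)) : Module.End ℝ ((Fin n → Bool) → ℝ) where
  toFun f := fun x => if x ∈ H then 0 else (∑ i, if flip i x ∈ H then 0 else f (flip i x)) / n
  map_add' f g := by
    funext x
    by_cases hx : x ∈ H
    · simp [hx]
    · simp only [hx, if_false, Pi.add_apply]
      rw [← add_div, ← Finset.sum_add_distrib]
      congr 1
      apply Finset.sum_congr rfl
      intro i _
      split_ifs <;> simp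
  map_smul' c f := by
    funext x
    by_cases hx : x ∈ H
    · simp [hx]
    · simp only [hx, if_false, Pi.smul_apply, smul_eq_mul, RingHom.id_apply]
      rw [← mul_div_assoc, Finset.mul_sum]
      congr 1
      apply Finset.sum_congr rfl
      intro i _
      split_ifs <;> simp

theorem Pop_apply (f : (Fin n → Bool) → ℝ) (x : Fin n → Bool) :
    Pop n f x = (∑ i, f (flip i x)) / n := rfl

theorem Top_apply (H : Finset (Fin n → Bool)) (f : (Fin n → Bool) → ℝ) (x : Fin n → Bool) :
    Top H f x = if x ∈ H then 0 else (∑ i, if flip i x ∈ H then 0 else f (flip i x)) / n := rfl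

theorem Pop_sym : IsSym (Pop n) := by
  intro f g
  unfold ip
  simp only [Pop_apply]
  have e1 : ∀ x, f x * ((∑ i, g (flip i x)) / n) = (∑ i, f x * g (flip i x)) / n := by
    intro x; rw [← mul_div_assoc, Finset.mul_sum]
  have e2 : ∀ x, ((∑ i, f (flip i x)) / n) * g x = (∑ i, f (flip i x) * g x) / n := by
    intro x; rw [div_mul_eq_mul_div, Finset.sum_mul]
  simp only [e1, e2]
  rw [← Finset.sum_div, ← Finset.sum_div]
  congr 1
  rw [Finset.sum_comm, Finset.sum_comm (s := univ) (t := univ) (f := fun x i => f (flip i x) * g x)]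
  apply Finset.sum_congr rfl
  intro i _
  rw [← sum_flip i (fun x => f x * g (flip i x))]
  simp

theorem Pop_pos : IsPos (Pop n) := by
  intro f hf x
  rw [Pop_apply]
  have : 0 ≤ ∑ i, f (flip i x) := Finset.sum_nonneg (fun i _ => hf _)
  simp only [Pi.zero_apply]
  positivity

theorem Pop_one (hn : 0 < n) : Pop n 1 = 1 := by
  funext x
  rw [Pop_apply]
  simp only [Pi.one_apply, sum_const, card_univ, Fintype.card_fin, nsmul_eq_mul, mul_one]
  have : (n : ℝ) ≠ 0 := by positivity
  field_simp

theorem Pop_pow_one (hn : 0 < n) (j : ℕ) : (Pop n ^ j) 1 = 1 := by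
  induction j with
  | zero => simp
  | succ j ih => rw [pow_succ', Module.End.mul_apply, ih, Pop_one hn]

theorem Top_sym (H : Finset (Fin n → Bool)) : IsSym (Top H) := by
  intro f g
  unfold ip
  simp only [Top_apply]
  have e1 : ∀ x, f x * (if x ∈ H then 0 else (∑ i, if flip i x ∈ H then 0 else g (flip i x)) / n)
      = (∑ i, if x ∈ H then 0 else if flip i x ∈ H then 0 else f x * g (flip i x)) / n := by
    intro x
    by_cases hx : x ∈ H
    · simp [hx]
    · simp only [hx, if_false]
      rw [← mul_div_assoc, Finset.mul_sum]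
      congr 1
      apply Finset.sum_congr rfl
      intro i _
      split_ifs <;> simp
  have e2 : ∀ x, (if x ∈ H then 0 else (∑ i, if flip i x ∈ H then 0 else f (flip i x)) / n) * g x
      = (∑ i, if x ∈ H then 0 else if flip i x ∈ H then 0 else f (flip i x) * g x) / n := by
    intro x
    by_cases hx : x ∈ H
    · simp [hx]
    · simp only [hx, if_false]
      rw [div_mul_eq_mul_div, Finset.sum_mul]
      congr 1
      apply Finset.sum_congr rfl
      intro i _
      split_ifs <;> simp
  simp only [e1, e2]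
  rw [← Finset.sum_div, ← Finset.sum_div]
  congr 1
  rw [Finset.sum_comm, Finset.sum_comm (s := univ) (t := univ)
    (f := fun x i => if x ∈ H then 0 else if flip i x ∈ H then 0 else f (flip i x) * g x)]
  apply Finset.sum_congr rfl
  intro i _
  rw [← sum_flip i (fun x => if x ∈ H then 0 else if flip i x ∈ H then 0 else f x * g (flip i x))]
  apply Finset.sum_congr rfl
  intro x _
  rw [flip_flip]
  split_ifs <;> rfl

theorem Top_pos (H : Finset (Fin n → Bool)) : IsPos (Top H) := by
  intro f hf x
  rw [Top_apply]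
  simp only [Pi.zero_apply]
  split_ifs with hx
  · exact le_refl _
  · have : 0 ≤ ∑ i, (if flip i x ∈ H then 0 else f (flip i x)) := by
      apply Finset.sum_nonneg
      intro i _
      split_ifs
      · exact le_refl _
      · exact hf _
    positivity

theorem Top_le_Pop (H : Finset (Fin n → Bool)) {f : (Fin n → Bool) → ℝ} (hf : 0 ≤ f) :
    Top H f ≤ Pop n f := by
  intro x
  rw [Top_apply, Pop_apply]
  split_ifs with hx
  · have : 0 ≤ ∑ i, f (flip i x) := Finset.sum_nonneg (fun i _ => hf _)
    positivity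
  · gcongr with i _
    split_ifs
    · exact hf _
    · exact le_refl _

theorem Top_pow_le_Pop_pow (H : Finset (Fin n → Bool)) (j : ℕ) {f : (Fin n → Bool) → ℝ}
    (hf : 0 ≤ f) : (Top H ^ j) f ≤ (Pop n ^ j) f := by
  induction j with
  | zero => simp
  | succ j ih =>
    rw [pow_succ', pow_succ', Module.End.mul_apply, Module.End.mul_apply]
    have h1 : 0 ≤ (Top H ^ j) f := (Top_pos H).pow j f hf
    exact (Top_le_Pop H h1).trans (Pop_pos.mono ih)

theorem Top_pow_le_one (hn : 0 < n) (H : Finset (Fin n → Bool)) (j : ℕ)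
    {f : (Fin n → Bool) → ℝ} (hf : 0 ≤ f) (hf1 : f ≤ 1) : (Top H ^ j) f ≤ 1 := by
  refine (Top_pow_le_Pop_pow H j hf).trans ?_
  rw [← Pop_pow_one hn j]
  exact (Pop_pos.pow j).mono hf1

/-- killing costs at most the expected number of visits -/
theorem Pop_sub_Top (H : Finset (Fin n → Bool)) (j : ℕ)
    {f : (Fin n → Bool) → ℝ} (hf : 0 ≤ f) (hf1 : f ≤ 1) (hn : 0 < n) :
    (Pop n ^ j) f - (Top H ^ j) f ≤ ∑ i ∈ range (j + 1), (Pop n ^ i) (ind H) := by
  induction j with
  | zero =>
    simp only [pow_zero, Module.End.one_apply, sub_self]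
    simpa using ind_nonneg H
  | succ j ih =>
    have hT0 : 0 ≤ (Top H ^ j) f := (Top_pos H).pow j f hf
    have hT1 : (Top H ^ j) f ≤ 1 := Top_pow_le_one hn H j hf hf1
    have hP1 : (Pop n ^ (j + 1)) f ≤ 1 := by
      rw [← Pop_pow_one hn (j + 1)]
      exact (Pop_pos.pow _).mono hf1
    -- T^{j+1} f x ≥ P (T^j f) x - ind H x - P (ind H) x  if j = 0, handled uniformly
    cases j with
    | zero =>
      intro x
      simp only [zero_add, pow_one, Pi.sub_apply]
      rw [Finset.sum_range_succ, Finset.sum_range_one]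
      simp only [pow_zero, Module.End.one_apply, pow_one, Pi.add_apply]
      rw [Top_apply, Pop_apply, Pop_apply]
      by_cases hx : x ∈ H
      · have h1 : (∑ i, f (flip i x)) / n ≤ 1 := by
          have := hP1 x
          simpa [Pop_apply] using this
        have h2 : 0 ≤ (∑ i, ind H (flip i x)) / (n : ℝ) := by
          have : 0 ≤ ∑ i, ind H (flip i x) := Finset.sum_nonneg (fun i _ => ind_nonneg H _)
          positivity
        have h3 : ind H x = 1 := by simp [ind, hx]
        simp only [hx, if_true]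
        linarith
      · have h3 : ind H x = 0 := by simp [ind, hx]
        simp only [hx, if_false, h3]
        rw [← sub_div, ← Finset.sum_sub_distrib, zero_add]
        gcongr with i _
        unfold ind
        split_ifs with h
        · simpa using hf1 (flip i x)
        · simp
    | succ j =>
      have hzero : ∀ y ∈ H, (Top H ^ (j + 1)) f y = 0 := by
        intro y hy
        rw [pow_succ', Module.End.mul_apply, Top_apply]
        simp [hy]
      intro x
      rw [Finset.sum_range_succ']
      simp only [pow_zero, Module.End.one_apply, Pi.add_apply, Pi.sub_apply]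
      rw [pow_succ' (Pop n) (j + 1), pow_succ' (Top H) (j + 1), Module.End.mul_apply,
        Module.End.mul_apply]
      have hsum : (∑ i ∈ range (j + 1 + 1), (Pop n ^ (i + 1)) (ind H))
          = Pop n (∑ i ∈ range (j + 1 + 1), (Pop n ^ i) (ind H)) := by
        rw [map_sum]
        apply Finset.sum_congr rfl
        intro i _
        rw [pow_succ', Module.End.mul_apply]
      rw [hsum]
      by_cases hx : x ∈ H
      · have h1 : Pop n ((Pop n ^ (j + 1)) f) x ≤ 1 := by
          have := hP1 x
          rw [pow_succ', Module.End.mul_apply] at this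
          simpa using this
        have h2 : 0 ≤ Pop n (∑ i ∈ range (j + 1 + 1), (Pop n ^ i) (ind H)) x := by
          apply Pop_pos
          exact Finset.sum_nonneg (fun i _ => (Pop_pos.pow i) _ (ind_nonneg H))
        have h3 : ind H x = 1 := by simp [ind, hx]
        rw [Top_apply]
        simp only [hx, if_true]
        linarith
      · have h3 : ind H x = 0 := by simp [ind, hx]
        have h4 : Top H ((Top H ^ (j + 1)) f) x = Pop n ((Top H ^ (j + 1)) f) x := by
          rw [Top_apply, Pop_apply]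
          simp only [hx, if_false]
          congr 1
          apply Finset.sum_congr rfl
          intro i _
          split_ifs with h
          · rw [hzero _ h]
          · rfl
        rw [h3, h4, add_zero]
        have h5 := Pop_pos.mono ih x
        rw [map_sub] at h5
        simpa using h5

/-- the window averaged kernel -/
noncomputable def Kav (A : Module.End ℝ ((Fin n → Bool) → ℝ)) (k : ℕ) :
    Module.End ℝ ((Fin n → Bool) → ℝ) := (1 / 8 : ℝ) • ∑ j ∈ range 8, A ^ (k + j)

theorem Kav_sym {A : Module.End ℝ ((Fin n → Bool) → ℝ)} (h : IsSym A) (k : ℕ) :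
    IsSym (Kav A k) := (IsSym.sum _ _ (fun _ _ => h.pow _)).smul _

theorem Kav_pos {A : Module.End ℝ ((Fin n → Bool) → ℝ)} (h : IsPos A) (k : ℕ) :
    IsPos (Kav A k) := (IsPos.sum _ _ (fun _ _ => h.pow _)).smul (by norm_num)

theorem Kav_apply (A : Module.End ℝ ((Fin n → Bool) → ℝ)) (k : ℕ) (f : (Fin n → Bool) → ℝ)
    (x : Fin n → Bool) : Kav A k f x = (1 / 8 : ℝ) * ∑ j ∈ range 8, (A ^ (k + j)) f x := by
  unfold Kav
  simp [LinearMap.sum_apply, Finset.sum_apply]

theorem Kav_one (hn : 0 < n) (k : ℕ) : Kav (Pop n) k 1 = 1 := by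
  funext x
  rw [Kav_apply]
  simp [Pop_pow_one hn]

theorem Kav_succ (A : Module.End ℝ ((Fin n → Bool) → ℝ)) (k : ℕ) :
    Kav A (k + 1) = A * Kav A k := by
  unfold Kav
  rw [mul_smul_comm, Finset.mul_sum]
  congr 1
  apply Finset.sum_congr rfl
  intro j _
  rw [← pow_succ']
  congr 1
  ring

/-- comparison between consecutive windows -/
theorem Kav_shift (hn : 0 < n) (H : Finset (Fin n → Bool)) (k : ℕ)
    {f : (Fin n → Bool) → ℝ} (hf : 0 ≤ f) (hf1 : f ≤ 1) (x : Fin n → Bool) :
    Kav (Top H) (k + 1) f x - 1 / 8 ≤ Kav (Top H) k f x := by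
  rw [Kav_apply, Kav_apply]
  have h1 : ∑ j ∈ range 8, (Top H ^ (k + 1 + j)) f x
      = ∑ j ∈ range 8, (Top H ^ (k + j)) f x + (Top H ^ (k + 8)) f x - (Top H ^ k) f x := by
    have e : ∀ j, (Top H ^ (k + 1 + j)) f x = (Top H ^ (k + (j + 1))) f x := by
      intro j; rw [show k + 1 + j = k + (j + 1) by ring]
    simp only [e]
    have h2 := Finset.sum_range_succ' (fun j => (Top H ^ (k + j)) f x) 8
    have h3 := Finset.sum_range_succ (fun j => (Top H ^ (k + j)) f x) 8
    simp only [add_zero] at h2
    linarith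
  have h4 : (Top H ^ (k + 8)) f x ≤ 1 := Top_pow_le_one hn H _ hf hf1 x
  have h5 : 0 ≤ (Top H ^ k) f x := (Top_pos H).pow k f hf x
  rw [h1]
  linarith

/-- comparison between the one step cut and the long walk cut -/
theorem comparison (hn : 0 < n) (H V0 G : Finset (Fin n → Bool)) (k : ℕ) (hG : G ⊆ V0)
    (hVH : Disjoint V0 H)
    (hV0 : ∀ v ∈ V0, 5 / 16 ≤ Kav (Top H) (k + 1) (ind V0) v) :
    (3 / 16 : ℝ) * ((∑ r ∈ V0 \ G, ((univ.filter (fun i => flip i r ∈ G)).card : ℝ)) / n)
      ≤ 2 * ip (ind G) (Kav (Top H) (k + 1) (ind (V0 \ G))) := by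
  set R := V0 \ G with hR
  set Kt := Kav (Top H) (k + 1) with hKt
  have hKsym : IsSym Kt := Kav_sym (Top_sym H) _
  have hKpos : IsPos Kt := Kav_pos (Top_pos H) _
  have hn' : (0 : ℝ) < n := by exact_mod_cast hn
  have hGR : ind V0 = ind G + ind R := by
    rw [← ind_union Finset.disjoint_sdiff, Finset.union_sdiff_of_subset hG]
  have step1 : ∀ r ∈ R, (∑ i, if flip i r ∈ G then (3 / 16 - Kt (ind R) (flip i r)) else 0) / n
      ≤ Kt (ind G) r := by
    intro r hr
    have hrV : r ∈ V0 := (Finset.mem_sdiff.mp hr).1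
    have hrH : r ∉ H := Finset.disjoint_left.mp hVH hrV
    have e0 : Kt (ind G) r
        = (∑ i, if flip i r ∈ H then 0 else Kav (Top H) k (ind G) (flip i r)) / n := by
      rw [hKt, Kav_succ, Module.End.mul_apply, Top_apply, if_neg hrH]
    rw [e0]
    gcongr with i _
    have hpos : 0 ≤ Kav (Top H) k (ind G) (flip i r) := Kav_pos (Top_pos H) k _ (ind_nonneg _) _
    by_cases hi : flip i r ∈ G
    · have hiV : flip i r ∈ V0 := hG hi
      have hiH : flip i r ∉ H := Finset.disjoint_left.mp hVH hiV
      simp only [hi, hiH, if_true, if_false]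
      have h1 := Kav_shift hn H k (ind_nonneg G) (ind_le_one G) (flip i r)
      have h2 := hV0 _ hiV
      rw [hGR, map_add, Pi.add_apply] at h2
      rw [← hKt] at h1
      linarith
    · simp only [hi, if_false]
      split_ifs
      · exact le_refl _
      · exact hpos
  have step2 : (∑ r ∈ R, ∑ i, if flip i r ∈ G then (3 / 16 - Kt (ind R) (flip i r)) else 0) / n
      ≤ ip (ind R) (Kt (ind G)) := by
    rw [ip_ind_left, Finset.sum_div]
    exact Finset.sum_le_sum step1
  have step3 : ∑ r ∈ R, ∑ i, (if flip i r ∈ G then Kt (ind R) (flip i r) else 0)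
      ≤ n * ip (ind G) (Kt (ind R)) := by
    rw [Finset.sum_comm]
    have e : ∀ i : Fin n, ∑ r ∈ R, (if flip i r ∈ G then Kt (ind R) (flip i r) else 0)
        ≤ ip (ind G) (Kt (ind R)) := by
      intro i
      rw [ip_ind_left, ← Finset.sum_filter]
      rw [← Finset.sum_image (f := fun y => Kt (ind R) y) (g := flip i)
        (s := R.filter (fun r => flip i r ∈ G)) (fun a _ b _ h => flip_injective i h)]
      apply Finset.sum_le_sum_of_subset_of_nonneg
      · intro y hy
        simp only [mem_image, mem_filter] at hy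
        obtain ⟨r, hr, rfl⟩ := hy
        exact hr.2
      · intro y _ _
        exact hKpos _ (ind_nonneg _) _
    calc _ ≤ ∑ _i : Fin n, ip (ind G) (Kt (ind R)) := Finset.sum_le_sum (fun i _ => e i)
      _ = _ := by simp
  have e4 : ∑ r ∈ R, ∑ i, (if flip i r ∈ G then (3 / 16 - Kt (ind R) (flip i r)) else 0)
      = 3 / 16 * (∑ r ∈ R, ((univ.filter (fun i => flip i r ∈ G)).card : ℝ))
        - ∑ r ∈ R, ∑ i, (if flip i r ∈ G then Kt (ind R) (flip i r) else 0) := by
    rw [Finset.mul_sum, ← Finset.sum_sub_distrib]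
    apply Finset.sum_congr rfl
    intro r _
    have : (3 / 16 : ℝ) * ((univ.filter (fun i => flip i r ∈ G)).card : ℝ)
        = ∑ i, (if flip i r ∈ G then (3 / 16 : ℝ) else 0) := by
      rw [← Finset.sum_filter]
      simp [mul_comm]
    rw [this, ← Finset.sum_sub_distrib]
    apply Finset.sum_congr rfl
    intro i _
    split_ifs <;> simp
  have e5 : ip (ind R) (Kt (ind G)) = ip (ind G) (Kt (ind R)) := by
    rw [hKsym, ip_comm]
  rw [e4, e5] at step2
  rw [div_le_iff₀ hn'] at step2
  have : (3 / 16 : ℝ) * ((∑ r ∈ R, ((univ.filter (fun i => flip i r ∈ G)).card : ℝ)) / n)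
      = (3 / 16 * (∑ r ∈ R, ((univ.filter (fun i => flip i r ∈ G)).card : ℝ))) / n := by ring
  rw [this, div_le_iff₀ hn']
  nlinarith

/-- The static structure theorem. -/
theorem static_structure (k0 lam : ℕ) (hlam : 0 < lam) :
    ∃ c β : ℝ, 0 < c ∧ 0 < β ∧ β < 1 ∧ ∀ n : ℕ, 0 < n → ∀ H : Finset (Fin n → Bool),
      (H.card : ℝ) ≤ c * 2 ^ n / Real.sqrt n →
      ∃ G : Finset (Fin n → Bool), Disjoint G H ∧ (Gᶜ.card : ℝ) ≤ β * 2 ^ n ∧
        ∀ S ⊆ G, (S.card : ℝ) ≤ β * 2 ^ n →
          (lam : ℝ) / n * S.card ≤ ip (ind S) (Kav (Top H) (k0 + 1) (ind (G \ S))) := by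
  obtain ⟨ε, hε0, hε1, hiso⟩ := SB_small (12 * lam) (by omega)
  set C : ℝ := 5 * (1 + 16 * (k0 + 9)) with hC
  have hC0 : 0 < C := by rw [hC]; positivity
  refine ⟨ε / (2 * C), ε / 2, by positivity, by positivity, by linarith, ?_⟩
  intro n hn H hH
  have hn' : (0 : ℝ) < n := by exact_mod_cast hn
  have hn1 : (1 : ℝ) ≤ n := by exact_mod_cast hn
  have hN : (0 : ℝ) < 2 ^ n := by positivity
  have hsn : 0 < Real.sqrt n := Real.sqrt_pos.mpr hn'
  have hsn1 : 1 ≤ Real.sqrt n := by
    rw [show (1 : ℝ) = Real.sqrt 1 by simp]; exact Real.sqrt_le_sqrt hn1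
  have hlam' : (1 : ℝ) ≤ lam := by exact_mod_cast hlam
  -- U and B'
  set U : (Fin n → Bool) → ℝ := ∑ i ∈ range (k0 + 9), (Pop n ^ i) (ind H) with hU
  have hU0 : 0 ≤ U := Finset.sum_nonneg (fun i _ => (Pop_pos.pow i) _ (ind_nonneg H))
  have hUsum : ∑ x, U x = (k0 + 9) * H.card := by
    have e1 : ∑ x, U x = ip 1 U := by simp [ip]
    rw [e1, hU, ip_sum_right]
    have e2 : ∀ i ∈ range (k0 + 9), ip 1 ((Pop n ^ i) (ind H)) = H.card := by
      intro i _
      rw [(Pop_sym.pow i), Pop_pow_one hn, ip_comm, ip_ind_one]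
    rw [Finset.sum_congr rfl e2]
    simp
  set Bad : Finset (Fin n → Bool) := univ.filter (fun x => 1 / 16 < U x) with hBad
  have hBadcard : (Bad.card : ℝ) ≤ 16 * ((k0 + 9) * H.card) := by
    rw [← hUsum]
    have h1 : ∑ x ∈ Bad, (1 / 16 : ℝ) ≤ ∑ x ∈ Bad, U x := by
      apply Finset.sum_le_sum
      intro x hx
      rw [hBad, mem_filter] at hx
      exact hx.2.le
    have h2 : ∑ x ∈ Bad, U x ≤ ∑ x, U x :=
      Finset.sum_le_univ_sum_of_nonneg hU0
    rw [Finset.sum_const, nsmul_eq_mul] at h1
    linarith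
  obtain ⟨B0, hB0sub, hB0card, hB0⟩ := closure_lemma (Kav (Pop n) (k0 + 1))
    (Kav_sym Pop_sym _) (Kav_pos Pop_pos _) (Kav_one hn _) (H ∪ Bad)
  have hB0c : (B0.card : ℝ) ≤ C * H.card := by
    have h1 : ((H ∪ Bad).card : ℝ) ≤ H.card + Bad.card := by
      exact_mod_cast Finset.card_union_le _ _
    have h2 : (B0.card : ℝ) ≤ 5 * (H ∪ Bad).card := by exact_mod_cast hB0card
    rw [hC]
    nlinarith
  have hB0s : Real.sqrt n * B0.card ≤ ε / 2 * 2 ^ n := by
    have h1 : C * (H.card : ℝ) ≤ C * (ε / (2 * C) * 2 ^ n / Real.sqrt n) := by gcongr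
    have h2 : C * (ε / (2 * C) * 2 ^ n / Real.sqrt n) = ε / 2 * 2 ^ n / Real.sqrt n := by
      field_simp
    have h3 : (B0.card : ℝ) ≤ ε / 2 * 2 ^ n / Real.sqrt n := by linarith
    rw [le_div_iff₀ hsn] at h3
    linarith
  have hB0le : (B0.card : ℝ) ≤ ε * 2 ^ n := by
    have h0 : (0 : ℝ) ≤ B0.card := by positivity
    have : (B0.card : ℝ) ≤ Real.sqrt n * B0.card := by nlinarith
    nlinarith
  set V0 := B0ᶜ with hV0
  have hV0H : Disjoint V0 H := by
    rw [Finset.disjoint_left]
    intro x hx hxH
    rw [hV0, mem_compl] at hx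
    exact hx (hB0sub (Finset.mem_union_left _ hxH))
  have hKV0 : ∀ v ∈ V0, 5 / 16 ≤ Kav (Top H) (k0 + 1) (ind V0) v := by
    intro v hv
    rw [hV0, mem_compl] at hv
    have hUv : U v ≤ 1 / 16 := by
      by_contra hcon
      rw [not_le] at hcon
      exact hv (hB0sub (Finset.mem_union_right _ (by rw [hBad, mem_filter]; exact ⟨mem_univ _, hcon⟩)))
    have h1 : Kav (Pop n) (k0 + 1) (ind V0) v = 1 - Kav (Pop n) (k0 + 1) (ind B0) v := by
      rw [hV0, ind_compl, map_sub, Kav_one hn]; rfl
    have h2 := hB0 v hv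
    have h3 : Kav (Pop n) (k0 + 1) (ind V0) v - U v ≤ Kav (Top H) (k0 + 1) (ind V0) v := by
      rw [Kav_apply, Kav_apply]
      have h4 : ∀ j ∈ range 8, (Pop n ^ (k0 + 1 + j)) (ind V0) v - U v
          ≤ (Top H ^ (k0 + 1 + j)) (ind V0) v := by
        intro j hj
        rw [mem_range] at hj
        have h5 := Pop_sub_Top H (k0 + 1 + j) (ind_nonneg V0) (ind_le_one V0) hn v
        have h6 : (∑ i ∈ range (k0 + 1 + j + 1), (Pop n ^ i) (ind H)) v ≤ U v := by
          rw [hU, Finset.sum_apply, Finset.sum_apply]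
          apply Finset.sum_le_sum_of_subset_of_nonneg
          · intro i hi
            rw [mem_range] at *
            omega
          · intro i _ _
            exact (Pop_pos.pow i) _ (ind_nonneg H) v
        rw [Pi.sub_apply] at h5
        linarith
      have h7 := Finset.sum_le_sum h4
      rw [Finset.sum_sub_distrib] at h7
      simp only [sum_const, card_range, nsmul_eq_mul] at h7
      push_cast at h7
      linarith
    linarith
  obtain ⟨G, hGV, hGc, hGcut, hGexp⟩ := min_lemma (Kav (Top H) (k0 + 1))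
    (Kav_sym (Top_sym H) _) (Kav_pos (Top_pos H) _) V0 ((lam : ℝ) / n) (ε * 2 ^ n)
    (by rw [hV0, compl_compl]; exact hB0le)
  -- size of the complement of G
  have hcomp := comparison hn H V0 G k0 hGV hV0H hKV0
  set R := V0 \ G with hR
  set E : ℝ := ∑ r ∈ R, ((univ.filter (fun i => flip i r ∈ G)).card : ℝ) with hE
  have hsize : (Gᶜ.card : ℝ) ≤ ε / 2 * 2 ^ n := by
    have h1 := hiso n Gᶜ hGc
    have hdec : Gᶜ = B0 ∪ R := by
      ext x
      simp only [mem_compl, mem_union, hR, mem_sdiff, hV0]
      constructor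
      · intro hx
        by_cases hxB : x ∈ B0
        · exact Or.inl hxB
        · exact Or.inr ⟨hxB, hx⟩
      · rintro (hx | hx)
        · intro hxG
          have := hGV hxG
          rw [hV0, mem_compl] at this
          exact this hx
        · exact hx.2
    have hdisj : Disjoint B0 R := by
      rw [Finset.disjoint_left]
      intro x hx hxR
      rw [hR, mem_sdiff, hV0, mem_compl] at hxR
      exact hxR.1 hx
    have hhB : ∀ x, hB Gᶜ x = (univ.filter (fun i => flip i x ∈ G)).card := by
      intro x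
      unfold hB
      congr 1
      ext i
      simp
    have h2 : SB Gᶜ ≤ Real.sqrt n * B0.card + E := by
      unfold SB
      rw [hdec, Finset.sum_union hdisj, ← hdec]
      apply add_le_add
      · calc ∑ x ∈ B0, Real.sqrt (hB Gᶜ x) ≤ ∑ _x ∈ B0, Real.sqrt n := by
              apply Finset.sum_le_sum
              intro x _
              apply Real.sqrt_le_sqrt
              have : hB Gᶜ x ≤ n := by
                unfold hB
                refine (Finset.card_filter_le _ _).trans ?_
                simp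
              exact_mod_cast this
          _ = Real.sqrt n * B0.card := by simp [mul_comm]
      · rw [hE]
        apply Finset.sum_le_sum
        intro x _
        rw [hhB]
        set q : ℕ := (univ.filter (fun i => flip i x ∈ G)).card
        rcases Nat.eq_zero_or_pos q with h0 | h0
        · simp [h0]
        · have hq1 : (1 : ℝ) ≤ q := by exact_mod_cast h0
          rw [Real.sqrt_le_left (by positivity)]
          nlinarith
    have h3 : (3 / 16 : ℝ) * (E / n) ≤ 2 * ((lam : ℝ) / n * R.card) := by
      linarith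
    have h4 : E ≤ 32 / 3 * lam * R.card := by
      have e1 : (3 / 16 : ℝ) * (E / n) = (3 / 16 * E) / n := by ring
      have e2 : 2 * ((lam : ℝ) / n * R.card) = (2 * lam * R.card) / n := by ring
      rw [e1, e2, div_le_div_iff_of_pos_right hn'] at h3
      linarith
    have h5 : (R.card : ℝ) ≤ Gᶜ.card := by
      have : R.card ≤ Gᶜ.card := Finset.card_le_card (by rw [hdec]; exact Finset.subset_union_right)
      exact_mod_cast this
    push_cast at h1
    have h6 : (0 : ℝ) ≤ Gᶜ.card := by positivity
    have h7 : (lam : ℝ) * Gᶜ.card ≤ Real.sqrt n * B0.card := by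
      have h8 : 32 / 3 * (lam : ℝ) * R.card ≤ 32 / 3 * lam * Gᶜ.card := by gcongr
      nlinarith
    have h9 : (Gᶜ.card : ℝ) ≤ lam * Gᶜ.card := by nlinarith
    linarith
  refine ⟨G, Finset.disjoint_of_subset_left hGV hV0H, hsize, ?_⟩
  intro S hS hSc
  apply hGexp S hS
  have h1 : ((G \ S)ᶜ.card : ℝ) ≤ Gᶜ.card + S.card := by
    have : (G \ S)ᶜ ⊆ Gᶜ ∪ S := by
      intro x hx
      simp only [mem_compl, mem_sdiff, not_and, not_not, mem_union] at *
      by_cases hxG : x ∈ G
      · exact Or.inr (hx hxG)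
      · exact Or.inl hxG
    have h2 := (Finset.card_le_card this).trans (Finset.card_union_le _ _)
    exact_mod_cast h2
  linarith

end Pool.Agent.helper13
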