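import Pool.Agent.helper13.Static

/-!
Estimates for the simple random walk on the cube.
-/

open Finset

namespace Pool.Agent.helper13

variable {n : ℕ}

theorem hammingDist_flip_of_ne {i : Fin n} {x c : Fin n → Bool} (h : x i ≠ c i) :
    hammingDist x c = hammingDist (flip i x) c + 1 := by
  unfold hammingDist
  have e : (univ.filter (fun j => x j ≠ c j))
      = insert i (univ.filter (fun j => flip i x j ≠ c j)) := by
    ext j
    simp only [mem_filter, mem_univ, true_and, mem_insert]
    by_cases hj : j = i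
    · subst hj; simp [h]
    · rw [flip_ne hj]; simp [hj]
  rw [e, Finset.card_insert_of_notMem]
  simp only [mem_filter, mem_univ, true_and, not_not]
  rw [flip_same]
  cases hx : x i <;> cases hc : c i <;> simp_all

theorem hammingDist_flip_of_eq {i : Fin n} {x c : Fin n → Bool} (h : x i = c i) :
    hammingDist (flip i x) c = hammingDist x c + 1 := by
  have h' : flip i x i ≠ c i := by
    rw [flip_same, h]; simp
  have := hammingDist_flip_of_ne h'
  rwa [flip_flip] at this

/-- closed ball of radius one -/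
def ball (c : Fin n → Bool) : Finset (Fin n → Bool) := univ.filter (fun x => hammingDist x c ≤ 1)

theorem mem_ball {c x : Fin n → Bool} : x ∈ ball c ↔ hammingDist x c ≤ 1 := by simp [ball]

theorem exists_flip_of_dist_one {x c : Fin n → Bool} (h : hammingDist x c = 1) :
    ∃ i, x = flip i c := by
  unfold hammingDist at h
  rw [Finset.card_eq_one] at h
  obtain ⟨i, hi⟩ := h
  refine ⟨i, ?_⟩
  funext j
  by_cases hj : j = i
  · subst hj
    have : j ∈ univ.filter (fun i => x i ≠ c i) := by rw [hi]; simp
    simp only [mem_filter, mem_univ, true_and] at this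
    rw [flip_same]
    cases hx : x j <;> cases hc : c j <;> simp_all
  · have : j ∉ univ.filter (fun i => x i ≠ c i) := by rw [hi]; simpa using hj
    simp only [mem_filter, mem_univ, true_and, not_not] at this
    rw [flip_ne hj, this]

theorem card_ball_le (c : Fin n → Bool) : (ball c).card ≤ n + 1 := by
  have : ball c ⊆ insert c (univ.image (fun i => flip i c)) := by
    intro x hx
    rw [mem_ball] at hx
    simp only [mem_insert, mem_image, mem_univ, true_and]
    rcases Nat.le_one_iff_eq_zero_or_eq_one.mp hx with h | h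
    · exact Or.inl (hammingDist_eq_zero.mp h)
    · obtain ⟨i, hi⟩ := exists_flip_of_dist_one h
      exact Or.inr ⟨i, hi.symm⟩
  refine (Finset.card_le_card this).trans ((Finset.card_insert_le _ _).trans ?_)
  have := Finset.card_image_le (s := (univ : Finset (Fin n))) (f := fun i => flip i c)
  simp at this
  omega

/-- number of flips leading into the ball -/
theorem flips_into_ball {x c : Fin n → Bool} (h : x ≠ c) :
    (univ.filter (fun i => flip i x ∈ ball c)).card ≤ 2 := by
  have hd : 0 < hammingDist x c := hammingDist_pos.mpr h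
  by_cases h2 : hammingDist x c ≤ 2
  · refine le_trans (Finset.card_le_card ?_) h2
    intro i hi
    simp only [mem_filter, mem_univ, true_and, mem_ball] at hi ⊢
    intro heq
    have := hammingDist_flip_of_eq heq
    omega
  · have : (univ.filter (fun i => flip i x ∈ ball c)) = ∅ := by
      ext i
      simp only [mem_filter, mem_univ, true_and, mem_ball, notMem_empty, iff_false, not_le]
      by_cases heq : x i = c i
      · have := hammingDist_flip_of_eq heq
        omega
      · have := hammingDist_flip_of_ne heq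
        omega
    rw [this]; simp

theorem P1_ball (hn : 0 < n) {x c : Fin n → Bool} (h : x ≠ c) :
    Pop n (ind (ball c)) x ≤ 2 / n := by
  rw [Pop_apply]
  have hn' : (0 : ℝ) < n := by exact_mod_cast hn
  gcongr
  have e : ∑ i, ind (ball c) (flip i x) = ((univ.filter (fun i => flip i x ∈ ball c)).card : ℝ) := by
    unfold ind; simp
  rw [e]
  exact_mod_cast flips_into_ball h

theorem P2_ball (hn : 0 < n) (x c : Fin n → Bool) :
    Pop n (Pop n (ind (ball c))) x ≤ 3 / n := by
  have hn' : (0 : ℝ) < n := by exact_mod_cast hn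
  rw [Pop_apply]
  gcongr
  have hb : ∀ i : Fin n, Pop n (ind (ball c)) (flip i x) ≤ 2 / n + if flip i x = c then 1 else 0 := by
    intro i
    split_ifs with h
    · have h1 : Pop n (ind (ball c)) (flip i x) ≤ 1 := by
        have := Pop_pos.mono (ind_le_one (ball c)) (flip i x)
        rw [Pop_one hn] at this
        simpa using this
      have : (0 : ℝ) ≤ 2 / n := by positivity
      linarith
    · simpa using P1_ball hn h
  have h1 := Finset.sum_le_sum (fun i (_ : i ∈ (univ : Finset (Fin n))) => hb i)
  refine h1.trans ?_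
  rw [Finset.sum_add_distrib]
  have h2 : ∑ i : Fin n, (if flip i x = c then (1 : ℝ) else 0) ≤ 1 := by
    rw [Finset.sum_boole]
    have : (univ.filter (fun i => flip i x = c)).card ≤ 1 := by
      rw [Finset.card_le_one]
      intro a ha b hb
      simp only [mem_filter, mem_univ, true_and] at ha hb
      exact flip_left_inj (ha.trans hb.symm)
    exact_mod_cast this
  have h3 : ∑ _i : Fin n, (2 : ℝ) / n = 2 := by
    simp; field_simp
  linarith

theorem Ppow_ball_two (hn : 0 < n) (c : Fin n → Bool) (i : ℕ) (x : Fin n → Bool) :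
    (Pop n ^ (i + 2)) (ind (ball c)) x ≤ 3 / n := by
  have h : Pop n (Pop n (ind (ball c))) ≤ (3 / n : ℝ) • (1 : (Fin n → Bool) → ℝ) := by
    intro y; simpa using P2_ball hn y c
  have h2 := (Pop_pos.pow i).mono h x
  rw [map_smul, Pop_pow_one hn] at h2
  rw [pow_add, Module.End.mul_apply, pow_two, Module.End.mul_apply]
  simpa using h2

theorem Ppow_ball (hn : 0 < n) {x c : Fin n → Bool} (h : x ≠ c) (i : ℕ) :
    (Pop n ^ (i + 1)) (ind (ball c)) x ≤ 3 / n := by
  cases i with
  | zero =>
    have := P1_ball hn h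
    simp only [zero_add, pow_one]
    refine this.trans ?_
    gcongr
    norm_num
  | succ i => exact Ppow_ball_two hn c i x

/-- decay of the return probabilities -/
theorem decay (hn : 0 < n) (c : Fin n → Bool) (m : ℕ) :
    ∀ x, (Pop n ^ m) (ind (ball c)) x ≤
      if hammingDist x c ≤ m + 1 then
        ((m + 2).factorial : ℝ) * Real.sqrt n * (1 / Real.sqrt n) ^ (m + hammingDist x c) else 0 := by
  have hn' : (0 : ℝ) < n := by exact_mod_cast hn
  have hn1 : (1 : ℝ) ≤ n := by exact_mod_cast hn
  have hs0 : 0 < Real.sqrt n := Real.sqrt_pos.mpr hn'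
  have hss : Real.sqrt n * Real.sqrt n = n := Real.mul_self_sqrt hn'.le
  set s : ℝ := 1 / Real.sqrt n with hs
  have hspos : 0 < s := by rw [hs]; positivity
  have hs2 : s * s = 1 / n := by rw [hs]; field_simp; rw [sq, hss]
  have hsn : Real.sqrt n * s = 1 := by rw [hs]; field_simp
  induction m with
  | zero =>
    intro x
    simp only [pow_zero, Module.End.one_apply, zero_add]
    unfold ind
    simp only [mem_ball]
    split_ifs with h
    · rcases Nat.le_one_iff_eq_zero_or_eq_one.mp h with h0 | h0
      · rw [h0]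
        have : (1 : ℝ) ≤ Real.sqrt n := by
          rw [show (1 : ℝ) = Real.sqrt 1 by simp]; exact Real.sqrt_le_sqrt hn1
        simp [Nat.factorial]
        linarith
      · rw [h0, pow_one, mul_assoc, hsn]
        simp [Nat.factorial]
    · exact le_refl _
  | succ m ih =>
    intro x
    rw [pow_succ', Module.End.mul_apply, Pop_apply]
    set d := hammingDist x c with hd
    -- bound each neighbour
    set Cm : ℝ := ((m + 2).factorial : ℝ) * Real.sqrt n with hCm
    have hCm0 : 0 ≤ Cm := by rw [hCm]; positivity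
    by_cases hdm : d ≤ m + 1 + 1
    · rw [if_pos hdm]
      have hb : ∀ i : Fin n, (Pop n ^ m) (ind (ball c)) (flip i x) ≤
          Cm * s ^ (m + 1 + d) + if x i ≠ c i then Cm * s ^ (m + 1 + d) * n else 0 := by
        intro i
        have h1 := ih (flip i x)
        by_cases hi : x i = c i
        · have h2 := hammingDist_flip_of_eq hi
          rw [← hd] at h2
          rw [h2] at h1
          simp only [hi, ne_eq, not_true_eq_false, if_false, add_zero]
          refine h1.trans ?_
          split_ifs
          · rw [show m + (d + 1) = m + 1 + d by ring]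
          · positivity
        · have h2 := hammingDist_flip_of_ne hi
          rw [← hd] at h2
          simp only [hi, ne_eq, not_false_eq_true, if_true]
          have h3 : Cm * s ^ (m + hammingDist (flip i x) c) = Cm * s ^ (m + 1 + d) * n := by
            rw [h2, show m + 1 + (hammingDist (flip i x) c + 1)
              = (m + hammingDist (flip i x) c) + 1 + 1 by ring, pow_succ, pow_succ]
            have : s * s * n = 1 := by rw [hs2]; field_simp
            calc Cm * s ^ (m + hammingDist (flip i x) c)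
                = Cm * (s ^ (m + hammingDist (flip i x) c) * (s * s * n)) := by rw [this, mul_one]
              _ = _ := by ring
          have h4 : (if hammingDist (flip i x) c ≤ m + 1 then
              Cm * s ^ (m + hammingDist (flip i x) c) else 0) ≤ Cm * s ^ (m + 1 + d) * n := by
            split_ifs
            · rw [h3]
            · positivity
          have h5 : 0 ≤ Cm * s ^ (m + 1 + d) := by positivity
          linarith
      have h1 := Finset.sum_le_sum (fun i (_ : i ∈ (univ : Finset (Fin n))) => hb i)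
      rw [div_le_iff₀ hn']
      refine h1.trans ?_
      rw [Finset.sum_add_distrib, ← Finset.sum_filter]
      have e1 : (univ.filter (fun i => x i ≠ c i)).card = d := rfl
      rw [Finset.sum_const, Finset.sum_const, e1, card_univ, Fintype.card_fin]
      simp only [nsmul_eq_mul]
      have hfac : (((m + 1 + 2).factorial : ℕ) : ℝ) = (m + 3) * (m + 2).factorial := by
        rw [show m + 1 + 2 = (m + 2) + 1 by ring, Nat.factorial_succ]; push_cast; ring
      rw [hfac]
      have hd' : (d : ℝ) ≤ m + 2 := by exact_mod_cast hdm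
      have e2 : (m + 3 : ℝ) * ((m + 2).factorial : ℝ) * Real.sqrt n * s ^ (m + 1 + d) * n
          = (m + 3) * (Cm * s ^ (m + 1 + d)) * n := by rw [hCm]; ring
      rw [e2]
      have h5 : 0 ≤ Cm * s ^ (m + 1 + d) := by positivity
      have h6 : (n : ℝ) * (Cm * s ^ (m + 1 + d)) + d * (Cm * s ^ (m + 1 + d) * n)
          = (1 + d) * (Cm * s ^ (m + 1 + d)) * n := by ring
      rw [h6]
      have h7 : (1 + (d : ℝ)) ≤ m + 3 := by linarith
      exact mul_le_mul_of_nonneg_right (mul_le_mul_of_nonneg_right h7 h5) hn'.le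
    · rw [if_neg hdm]
      have hb : ∀ i : Fin n, (Pop n ^ m) (ind (ball c)) (flip i x) ≤ 0 := by
        intro i
        have h1 := ih (flip i x)
        rw [if_neg] at h1
        · exact h1
        · by_cases hi : x i = c i
          · have h2 := hammingDist_flip_of_eq hi
            omega
          · have h2 := hammingDist_flip_of_ne hi
            omega
      have h1 := Finset.sum_nonpos (fun i (_ : i ∈ (univ : Finset (Fin n))) => hb i)
      exact div_nonpos_of_nonpos_of_nonneg h1 hn'.le

theorem decay_eleven (hn : 0 < n) (c : Fin n → Bool) (x : Fin n → Bool) :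
    (Pop n ^ 11) (ind (ball c)) x ≤ (Nat.factorial 13 : ℝ) / n ^ 5 := by
  have hn' : (0 : ℝ) < n := by exact_mod_cast hn
  have hn1 : (1 : ℝ) ≤ n := by exact_mod_cast hn
  have hs0 : 0 < Real.sqrt n := Real.sqrt_pos.mpr hn'
  have h := decay hn c 11 x
  refine h.trans ?_
  have hs1 : 1 / Real.sqrt n ≤ 1 := by
    rw [div_le_one hs0, show (1 : ℝ) = Real.sqrt 1 by simp]
    exact Real.sqrt_le_sqrt hn1
  have e : Real.sqrt n * (1 / Real.sqrt n) ^ 11 = 1 / (n : ℝ) ^ 5 := by
    have h1 : (n : ℝ) ^ 5 = Real.sqrt n ^ 10 := by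
      rw [show (10 : ℕ) = 2 * 5 by norm_num, pow_mul, Real.sq_sqrt hn'.le]
    rw [h1]
    field_simp
  split_ifs
  · have h1 : (1 / Real.sqrt n) ^ (11 + hammingDist x c) ≤ (1 / Real.sqrt n) ^ 11 :=
      pow_le_pow_of_le_one (by positivity) hs1 (by omega)
    calc ((11 + 2).factorial : ℝ) * Real.sqrt n * (1 / Real.sqrt n) ^ (11 + hammingDist x c)
        ≤ ((11 + 2).factorial : ℝ) * Real.sqrt n * (1 / Real.sqrt n) ^ 11 := by gcongr
      _ = ((11 + 2).factorial : ℝ) * (Real.sqrt n * (1 / Real.sqrt n) ^ 11) := by ring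
      _ = (Nat.factorial 13 : ℝ) / n ^ 5 := by rw [e]; ring
  · positivity

theorem decay_ge (hn : 0 < n) (c : Fin n → Bool) (m : ℕ) (x : Fin n → Bool) :
    (Pop n ^ (m + 11)) (ind (ball c)) x ≤ (Nat.factorial 13 : ℝ) / n ^ 5 := by
  have h : (Pop n ^ 11) (ind (ball c)) ≤
      ((Nat.factorial 13 : ℝ) / n ^ 5) • (1 : (Fin n → Bool) → ℝ) := by
    intro y; simpa using decay_eleven hn c y
  have h2 := (Pop_pos.pow m).mono h x
  rw [map_smul, Pop_pow_one hn] at h2
  rw [pow_add, Module.End.mul_apply]
  simpa using h2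

/-- expected number of visits to the ball around `c` at times `1, …, r` -/
noncomputable def Dv (r : ℕ) (c : Fin n → Bool) : (Fin n → Bool) → ℝ :=
  ∑ i ∈ range r, (Pop n ^ (i + 1)) (ind (ball c))

theorem Dv_nonneg (r : ℕ) (c : Fin n → Bool) : 0 ≤ Dv r c :=
  Finset.sum_nonneg (fun i _ => (Pop_pos.pow _) _ (ind_nonneg _))

theorem Dv_zero (c : Fin n → Bool) : Dv 0 c = 0 := by simp [Dv]

theorem Dv_succ (r : ℕ) (c : Fin n → Bool) : Dv (r + 1) c = Pop n (ind (ball c) + Dv r c) := by
  unfold Dv
  rw [Finset.sum_range_succ', map_add, map_sum]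
  have e1 : (Pop n ^ (0 + 1)) (ind (ball c)) = Pop n (ind (ball c)) := by simp
  have e2 : ∑ i ∈ range r, (Pop n ^ (i + 1 + 1)) (ind (ball c))
      = ∑ i ∈ range r, Pop n ((Pop n ^ (i + 1)) (ind (ball c))) := by
    apply Finset.sum_congr rfl
    intro i _
    rw [pow_succ' (Pop n) (i + 1), Module.End.mul_apply]
  rw [e1, e2, add_comm]

theorem Dv_mono {r r' : ℕ} (h : r ≤ r') (c : Fin n → Bool) : Dv r c ≤ Dv r' c := by
  intro x
  unfold Dv
  rw [Finset.sum_apply, Finset.sum_apply]
  apply Finset.sum_le_sum_of_subset_of_nonneg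
  · exact Finset.range_mono h
  · intro i _ _
    exact (Pop_pos.pow _) _ (ind_nonneg _) x

theorem Dv_le (hn : 0 < n) (r : ℕ) {x c : Fin n → Bool} (h : x ≠ c) :
    Dv r c x ≤ 3 * r / n := by
  unfold Dv
  rw [Finset.sum_apply]
  calc ∑ i ∈ range r, (Pop n ^ (i + 1)) (ind (ball c)) x ≤ ∑ _i ∈ range r, (3 : ℝ) / n :=
        Finset.sum_le_sum (fun i _ => Ppow_ball hn h i)
    _ = 3 * r / n := by simp; ring

/-- sum over a set of virtual cops -/
noncomputable def DM (r : ℕ) (M : Finset (Fin n → Bool)) : (Fin n → Bool) → ℝ :=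
  ∑ c ∈ M, Dv r c

theorem DM_nonneg (r : ℕ) (M : Finset (Fin n → Bool)) : 0 ≤ DM r M :=
  Finset.sum_nonneg (fun c _ => Dv_nonneg r c)

theorem DM_zero (M : Finset (Fin n → Bool)) : DM 0 M = 0 := by
  unfold DM; simp [Dv_zero]

theorem DM_mono {r r' : ℕ} (h : r ≤ r') (M : Finset (Fin n → Bool)) : DM r M ≤ DM r' M :=
  Finset.sum_le_sum (fun c _ => Dv_mono h c)

theorem DM_mono_set (r : ℕ) {M M' : Finset (Fin n → Bool)} (h : M ⊆ M') : DM r M ≤ DM r M' :=
  Finset.sum_le_sum_of_subset_of_nonneg h (fun c _ _ => Dv_nonneg r c)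

theorem DM_insert_le (hn : 0 < n) (r : ℕ) (M : Finset (Fin n → Bool)) {x c : Fin n → Bool}
    (h : x ≠ c) : DM r (insert c M) x ≤ DM r M x + 3 * r / n := by
  by_cases hc : c ∈ M
  · rw [Finset.insert_eq_of_mem hc]
    have : (0 : ℝ) ≤ 3 * r / n := by positivity
    linarith
  · unfold DM
    rw [Finset.sum_insert hc, Pi.add_apply]
    have := Dv_le hn r h
    linarith

/-- one step of the potential argument -/
theorem potential_step (hn : 0 < n) (H A M : Finset (Fin n → Bool)) (r : ℕ)
    {x : Fin n → Bool} (hx : x ∉ H)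
    (hpos : 0 < (Top H ^ (r + 1)) (ind A) x - DM (r + 1) M x) :
    ∃ i, flip i x ∉ H ∧ (∀ c ∈ M, flip i x ∉ ball c) ∧
      (Top H ^ (r + 1)) (ind A) x - DM (r + 1) M x
        ≤ (Top H ^ r) (ind A) (flip i x) - DM r M (flip i x) := by
  have hn' : (0 : ℝ) < n := by exact_mod_cast hn
  set φ : Fin n → ℝ := fun i =>
    (if flip i x ∈ H then 0 else (Top H ^ r) (ind A) (flip i x))
      - ∑ c ∈ M, (ind (ball c) (flip i x) + Dv r c (flip i x)) with hφ
  have e : (Top H ^ (r + 1)) (ind A) x - DM (r + 1) M x = (∑ i, φ i) / n := by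
    rw [pow_succ', Module.End.mul_apply, Top_apply, if_neg hx]
    have e2 : DM (r + 1) M x
        = (∑ i, ∑ c ∈ M, (ind (ball c) (flip i x) + Dv r c (flip i x))) / n := by
      unfold DM
      rw [Finset.sum_apply, Finset.sum_comm, Finset.sum_div]
      apply Finset.sum_congr rfl
      intro c _
      rw [Dv_succ, Pop_apply]
      simp
    rw [e2, ← sub_div, ← Finset.sum_sub_distrib]
  rw [e] at hpos ⊢
  -- choose the best direction
  have hne : (univ : Finset (Fin n)).Nonempty := ⟨⟨0, hn⟩, mem_univ _⟩
  obtain ⟨i, _, hi⟩ := Finset.exists_max_image univ φ hne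
  have havg : (∑ i, φ i) / n ≤ φ i := by
    rw [div_le_iff₀ hn']
    calc ∑ j, φ j ≤ ∑ _j : Fin n, φ i := Finset.sum_le_sum (fun j hj => hi j hj)
      _ = φ i * n := by simp [mul_comm]
  have hφpos : 0 < φ i := lt_of_lt_of_le hpos havg
  have hS0 : 0 ≤ ∑ c ∈ M, (ind (ball c) (flip i x) + Dv r c (flip i x)) :=
    Finset.sum_nonneg (fun c _ => add_nonneg (ind_nonneg _ _) (Dv_nonneg r c _))
  have hiH : flip i x ∉ H := by
    intro hcon
    have : φ i = 0 - ∑ c ∈ M, (ind (ball c) (flip i x) + Dv r c (flip i x)) := by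
      rw [hφ]; simp [hcon]
    linarith
  have hφi : φ i = (Top H ^ r) (ind A) (flip i x)
      - ∑ c ∈ M, (ind (ball c) (flip i x) + Dv r c (flip i x)) := by
    rw [hφ]; simp [hiH]
  have hT1 : (Top H ^ r) (ind A) (flip i x) ≤ 1 :=
    Top_pow_le_one hn H r (ind_nonneg A) (ind_le_one A) _
  refine ⟨i, hiH, ?_, ?_⟩
  · intro c hc hcb
    have h1 : (1 : ℝ) ≤ ∑ c ∈ M, (ind (ball c) (flip i x) + Dv r c (flip i x)) := by
      have h2 : ind (ball c) (flip i x) + Dv r c (flip i x)
          ≤ ∑ c ∈ M, (ind (ball c) (flip i x) + Dv r c (flip i x)) :=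
        Finset.single_le_sum
          (f := fun c => ind (ball c) (flip i x) + Dv r c (flip i x))
          (fun c _ => add_nonneg (ind_nonneg _ _) (Dv_nonneg r c _)) hc
      have h3 : ind (ball c) (flip i x) = 1 := by simp [ind, hcb]
      have h4 := Dv_nonneg r c (flip i x)
      simp only [Pi.zero_apply] at h4
      linarith
    linarith
  · refine havg.trans ?_
    rw [hφi]
    have h1 : DM r M (flip i x) ≤ ∑ c ∈ M, (ind (ball c) (flip i x) + Dv r c (flip i x)) := by
      unfold DM
      rw [Finset.sum_apply]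
      apply Finset.sum_le_sum
      intro c _
      have := ind_nonneg (ball c) (flip i x)
      simp only [Pi.zero_apply] at this
      linarith
    linarith

/-- dispersal: after at least ten steps the walk is unlikely to be near the virtual cops -/
theorem dispersal (hn : 0 < n) (M : Finset (Fin n → Bool)) (j K : ℕ) (hj : 10 ≤ j)
    (v : Fin n → Bool) :
    (Pop n ^ j) (ind (univ.filter (fun u => 1 / (n : ℝ) < DM K M u))) v
      ≤ M.card * K * (Nat.factorial 13 : ℝ) / n ^ 4 := by
  have hn' : (0 : ℝ) < n := by exact_mod_cast hn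
  have h1 : ind (univ.filter (fun u => 1 / (n : ℝ) < DM K M u)) ≤ (n : ℝ) • DM K M := by
    intro u
    unfold ind
    simp only [mem_filter, mem_univ, true_and, Pi.smul_apply, smul_eq_mul]
    split_ifs with h
    · have := mul_lt_mul_of_pos_left h hn'
      have e : (n : ℝ) * (1 / n) = 1 := by field_simp
      linarith
    · have := DM_nonneg K M u
      simp only [Pi.zero_apply] at this
      positivity
  have h2 := (Pop_pos.pow j).mono h1 v
  refine h2.trans ?_
  rw [map_smul]
  unfold DM Dv
  rw [map_sum]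
  simp only [map_sum, Pi.smul_apply, Finset.sum_apply, smul_eq_mul]
  have h3 : ∀ c ∈ M, ∀ i ∈ range K, (Pop n ^ j) ((Pop n ^ (i + 1)) (ind (ball c))) v
      ≤ (Nat.factorial 13 : ℝ) / n ^ 5 := by
    intro c _ i _
    rw [← Module.End.mul_apply, ← pow_add]
    obtain ⟨m, hm⟩ : ∃ m, j + (i + 1) = m + 11 := ⟨j + (i + 1) - 11, by omega⟩
    rw [hm]
    exact decay_ge hn c m v
  have h4 : ∑ c ∈ M, ∑ i ∈ range K, (Pop n ^ j) ((Pop n ^ (i + 1)) (ind (ball c))) v
      ≤ ∑ _c ∈ M, ∑ _i ∈ range K, (Nat.factorial 13 : ℝ) / n ^ 5 :=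
    Finset.sum_le_sum (fun c hc => Finset.sum_le_sum (fun i hi => h3 c hc i hi))
  calc (n : ℝ) * ∑ c ∈ M, ∑ i ∈ range K, (Pop n ^ j) ((Pop n ^ (i + 1)) (ind (ball c))) v
      ≤ n * ∑ _c ∈ M, ∑ _i ∈ range K, (Nat.factorial 13 : ℝ) / n ^ 5 := by gcongr
    _ = M.card * K * (Nat.factorial 13 : ℝ) / n ^ 4 := by
      simp only [Finset.sum_const, card_range, nsmul_eq_mul]
      field_simp

end Pool.Agent.helper13
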